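import Mathlib

/-!
# Darboux polynomials of `α X (1 + Y) ∂_X + β Y (1 + X) ∂_Y`

Over a domain `R` of characteristic zero, in `R[X][Y]`.
-/

open Polynomial

namespace Pool.Agent.Lib.MP_ec260d_ntU

variable {R : Type} [CommRing R]

/-- the derivation `∂_X` of `R[X][Y]` -/
noncomputable def DX (P : R[X][X]) : R[X][X] := ∑ i ∈ P.support, monomial i (derivative (P.coeff i))

theorem DX_coeff (P : R[X][X]) (j : ℕ) : (DX P).coeff j = derivative (P.coeff j) := by
  classical
  unfold DX
  rw [finsetSum_coeff]
  simp only [coeff_monomial]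
  rw [Finset.sum_ite_eq' P.support j]
  split_ifs with h
  · rfl
  · rw [notMem_support_iff.1 h, derivative_zero]

theorem DX_add (P Q : R[X][X]) : DX (P + Q) = DX P + DX Q := by
  ext1 j
  simp only [DX_coeff, coeff_add, derivative_add]

theorem DX_mul (P Q : R[X][X]) : DX (P * Q) = DX P * Q + P * DX Q := by
  ext1 j
  rw [DX_coeff, coeff_mul, coeff_add, coeff_mul, coeff_mul, derivative_sum, ← Finset.sum_add_distrib]
  refine Finset.sum_congr rfl fun x _ => ?_
  rw [derivative_mul, DX_coeff, DX_coeff]

theorem DX_X : DX (X : R[X][X]) = 0 := by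
  ext1 j
  rw [DX_coeff, coeff_zero, coeff_X]
  split_ifs <;> simp

theorem DX_C (a : R[X]) : DX (C a : R[X][X]) = C (derivative a) := by
  ext1 j
  rw [DX_coeff, coeff_C, coeff_C]
  split_ifs <;> simp

/-- chain rule for the diagonal -/
theorem derivative_diag (P : R[X][X]) :
    derivative (P.eval X) = (DX P).eval X + (derivative P).eval X := by
  induction P using Polynomial.induction_on' with
  | add p q hp hq => rw [eval_add, derivative_add, hp, hq, DX_add, eval_add, derivative_add, eval_add]; ring
  | monomial n a =>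
    have h1 : DX (monomial n a : R[X][X]) = monomial n (derivative a) := by
      ext1 j
      rw [DX_coeff, coeff_monomial, coeff_monomial]
      split_ifs <;> simp
    rw [h1, eval_monomial, eval_monomial, derivative_mul, derivative_monomial, eval_monomial,
      derivative_X_pow]
    simp only [map_natCast]
    ring

variable [IsDomain R] [CharZero R]

private lemma nd_X_deriv {p : R[X]} : (X * derivative p).natDegree ≤ p.natDegree := by
  by_cases h : p.natDegree = 0
  · rw [derivative_eq_zero.2 h]; simp
  · have := natDegree_derivative_lt h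
    refine natDegree_mul_le.trans ?_
    rw [natDegree_X]
    omega

theorem dar_lam {P Q : R[X][X]} {α β : R} (hα : α ≠ 0) (hβ : β ≠ 0)
    (hV : C (C α) * (C X * (1 + X) * DX P) + C (C β) * (X * (1 + C X) * derivative P) = Q * P)
    (h0 : P.map (evalRingHom 0) ≠ 0) (h1 : P.coeff 0 ≠ 0) (hdeg : P.natDegree ≠ 0) :
    α = β ∧ P.eval X = 0 := by
  classical
  have hP : P ≠ 0 := by rintro rfl; exact h1 (coeff_zero 0)
  obtain ⟨m, hm⟩ : ∃ m, m = P.natDegree := ⟨_, rfl⟩
  have hpm : P.coeff m ≠ 0 := by rw [hm]; exact leadingCoeff_ne_zero.2 hP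
  have hpgt : ∀ j, m < j → P.coeff j = 0 := fun j hj => coeff_eq_zero_of_natDegree_lt (by omega)
  -- degree of `Q`
  have hL : (C (C α) * (C X * (1 + X) * DX P) + C (C β) * (X * (1 + C X) * derivative P)).natDegree ≤
      m + 1 := by
    have hDX : (DX P).natDegree ≤ m := by
      rw [natDegree_le_iff_coeff_eq_zero]
      intro j hj
      rw [DX_coeff, hpgt j hj, derivative_zero]
    have hd : (derivative P).natDegree ≤ m := by
      have := natDegree_derivative_le P
      omega
    have hX1 : ((1 : R[X][X]) + X).natDegree ≤ 1 := by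
      refine (natDegree_add_le _ _).trans ?_
      simp
    refine (natDegree_add_le _ _).trans (max_le ?_ ?_)
    · refine (natDegree_C_mul_le _ _).trans ?_
      refine natDegree_mul_le.trans ?_
      have : (C X * (1 + X) : R[X][X]).natDegree ≤ 1 := (natDegree_C_mul_le _ _).trans hX1
      omega
    · refine (natDegree_C_mul_le _ _).trans ?_
      refine natDegree_mul_le.trans ?_
      have : (X * (1 + C X) : R[X][X]).natDegree ≤ 1 := by
        refine natDegree_mul_le.trans ?_
        have h2 : ((1 : R[X][X]) + C X).natDegree ≤ 0 := by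
          refine (natDegree_add_le _ _).trans ?_
          simp
        rw [natDegree_X]
        omega
      have hd' : (derivative P).natDegree ≤ m - 1 := by
        have := natDegree_derivative_le P
        omega
      omega
  have hQ : Q.natDegree ≤ 1 := by
    by_cases hQ0 : Q = 0
    · rw [hQ0]; simp
    · rw [hV, natDegree_mul hQ0 hP] at hL
      omega
  obtain ⟨q1, q0, hQq⟩ := exists_eq_X_add_C_of_natDegree_le_one hQ
  -- coefficients
  have eq0 : C α * (X * derivative (P.coeff 0)) = q0 * P.coeff 0 := by
    have h2 := congrArg (fun F => F.coeff 0) hV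
    simp only [hQq, coeff_add, mul_coeff_zero, coeff_C_zero, coeff_X_zero, DX_coeff, coeff_one_zero,
      add_zero, mul_one, mul_zero, zero_mul, zero_add] at h2
    exact h2
  have eqS : ∀ j, C α * (X * (derivative (P.coeff (j + 1)) + derivative (P.coeff j))) +
      C β * ((1 + X) * ((j + 1 : R[X]) * P.coeff (j + 1))) = q0 * P.coeff (j + 1) + q1 * P.coeff j := by
    intro j
    have h2 := congrArg (fun F => F.coeff (j + 1)) hV
    have e1 : (C (C α) * (C X * (1 + X) * DX P) : R[X][X]).coeff (j + 1) =
        C α * (X * (derivative (P.coeff (j + 1)) + derivative (P.coeff j))) := by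
      rw [coeff_C_mul, mul_assoc, coeff_C_mul, add_mul, one_mul, coeff_add, coeff_X_mul, DX_coeff,
        DX_coeff]
    have e2 : (C (C β) * (X * (1 + C X) * derivative P) : R[X][X]).coeff (j + 1) =
        C β * ((1 + X) * ((j + 1 : R[X]) * P.coeff (j + 1))) := by
      rw [coeff_C_mul, mul_assoc, coeff_X_mul, show (1 : R[X][X]) + C X = C (1 + X) by simp,
        coeff_C_mul, coeff_derivative]
      ring
    have e3 : (Q * P).coeff (j + 1) = q0 * P.coeff (j + 1) + q1 * P.coeff j := by
      rw [hQq, add_mul, coeff_add, mul_assoc, coeff_C_mul, coeff_X_mul, coeff_C_mul]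
      ring
    simp only [coeff_add] at h2
    rw [e1, e2, e3] at h2
    exact h2
  -- `q1 (0) = 0`
  have hq10 : q1.eval 0 = 0 := by
    set S := P.map (evalRingHom (0 : R)) with hS
    have hSc : ∀ j, S.coeff j = (P.coeff j).eval 0 := fun j => by
      rw [hS, coeff_map]; rfl
    have h2 := congrArg (eval (0 : R)) (eqS S.natDegree)
    simp only [eval_add, eval_mul, eval_C, eval_X, zero_mul, mul_zero, zero_add, ← hSc] at h2
    have h3 : S.coeff (S.natDegree + 1) = 0 := coeff_eq_zero_of_natDegree_lt (by omega)
    rw [h3] at h2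
    simp only [mul_zero, zero_add] at h2
    rcases mul_eq_zero.1 h2.symm with h4 | h4
    · exact h4
    · exact absurd h4 (leadingCoeff_ne_zero.2 h0)
  -- `q1 = 0`
  have hq1 : q1 = 0 := by
    by_contra hne
    have h2 := eqS m
    rw [hpgt (m + 1) (by omega)] at h2
    simp only [derivative_zero, zero_add, mul_zero, add_zero] at h2
    have h3 : (q1 * P.coeff m).natDegree ≤ (P.coeff m).natDegree := by
      rw [← h2]
      exact (natDegree_C_mul_le _ _).trans nd_X_deriv
    rw [natDegree_mul hne hpm] at h3
    have h4 : q1 = C (q1.coeff 0) := eq_C_of_natDegree_eq_zero (by omega)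
    rw [h4, eval_C] at hq10
    rw [hq10, C_0] at h4
    exact hne h4
  subst hq1
  simp only [zero_mul, add_zero] at eqS
  have hCα : (C α : R[X]) ≠ 0 := C_ne_zero.2 hα
  have hpm' : derivative (P.coeff m) = 0 := by
    have h2 := eqS m
    rw [hpgt (m + 1) (by omega)] at h2
    simp only [derivative_zero, zero_add, mul_zero, add_zero] at h2
    rcases mul_eq_zero.1 h2 with h3 | h3
    · exact absurd h3 hCα
    · rcases mul_eq_zero.1 h3 with h4 | h4
      · exact absurd h4 X_ne_zero
      · exact h4
  -- `q0` is a constant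
  have hq0 : q0.natDegree = 0 := by
    by_contra hne
    have hq00 : q0 ≠ 0 := by rintro rfl; simp at hne
    have h3 : (q0 * P.coeff 0).natDegree ≤ (P.coeff 0).natDegree := by
      rw [← eq0]
      exact (natDegree_C_mul_le _ _).trans nd_X_deriv
    rw [natDegree_mul hq00 h1] at h3
    omega
  obtain ⟨c, hc⟩ : ∃ c : R, q0 = C c := ⟨_, eq_C_of_natDegree_eq_zero hq0⟩
  subst hc
  -- degrees
  have hdegs : ∀ i, i ≤ m → (P.coeff (m - i)).natDegree = i ∧ P.coeff (m - i) ≠ 0 := by
    intro i
    induction i with
    | zero =>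
      intro _
      exact ⟨derivative_eq_zero.1 (by simpa using hpm'), by simpa using hpm⟩
    | succ i ih =>
      intro hi
      obtain ⟨hn, hne⟩ := ih (by omega)
      obtain ⟨j, hj⟩ : ∃ j, m - i = j + 1 := ⟨m - i - 1, by omega⟩
      have hj' : m - (i + 1) = j := by omega
      rw [hj] at hn hne
      rw [hj']
      set p := P.coeff (j + 1) with hp
      have h2 := eqS j
      have h3 : C α * (X * derivative (P.coeff j)) =
          C c * p - C β * ((1 + X) * ((j + 1 : R[X]) * p)) - C α * (X * derivative p) := by
        linear_combination h2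
      have hle : (C c * p - C β * ((1 + X) * ((j + 1 : R[X]) * p)) - C α * (X * derivative p)).natDegree ≤
          i + 1 := by
        have a1 : (C c * p).natDegree ≤ i + 1 := (natDegree_C_mul_le _ _).trans (by omega)
        have a2 : (C β * ((1 + X) * ((j + 1 : R[X]) * p))).natDegree ≤ i + 1 := by
          refine (natDegree_C_mul_le _ _).trans (natDegree_mul_le.trans ?_)
          have b1 : (1 + X : R[X]).natDegree ≤ 1 := by
            refine (natDegree_add_le _ _).trans ?_
            simp
          have b2 : ((j + 1 : R[X]) * p).natDegree ≤ i := by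
            rw [show (j + 1 : R[X]) = C (j + 1 : R) by simp]
            exact (natDegree_C_mul_le _ _).trans hn.le
          omega
        have a3 : (C α * (X * derivative p)).natDegree ≤ i + 1 :=
          (natDegree_C_mul_le _ _).trans (nd_X_deriv.trans (by omega))
        exact (natDegree_sub_le _ _).trans (max_le ((natDegree_sub_le _ _).trans (max_le a1 a2)) a3)
      have hco : (C c * p - C β * ((1 + X) * ((j + 1 : R[X]) * p)) -
          C α * (X * derivative p)).coeff (i + 1) = -(β * ((j + 1) * p.leadingCoeff)) := by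
        have c1 : p.coeff (i + 1) = 0 := coeff_eq_zero_of_natDegree_lt (by omega)
        have c2 : (X * derivative p).coeff (i + 1) = 0 :=
          coeff_eq_zero_of_natDegree_lt (lt_of_le_of_lt nd_X_deriv (by omega))
        rw [coeff_sub, coeff_sub, coeff_C_mul, coeff_C_mul, coeff_C_mul, c1, c2, add_mul, one_mul,
          coeff_add, coeff_X_mul, show (j + 1 : R[X]) = C (j + 1 : R) by simp, coeff_C_mul, coeff_C_mul,
          c1, leadingCoeff, hn]
        ring
      have hlc : β * ((j + 1) * p.leadingCoeff) ≠ 0 := by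
        have : ((j : R) + 1) ≠ 0 := by exact_mod_cast Nat.succ_ne_zero j
        exact mul_ne_zero hβ (mul_ne_zero this (leadingCoeff_ne_zero.2 hne))
      have hnd : (C α * (X * derivative (P.coeff j))).natDegree = i + 1 := by
        rw [h3]
        refine natDegree_eq_of_le_of_coeff_ne_zero hle ?_
        rw [hco]
        exact neg_ne_zero.2 hlc
      have hdne : derivative (P.coeff j) ≠ 0 := by
        intro h0
        rw [h0] at hnd
        simp at hnd
      rw [natDegree_C_mul hα, natDegree_X_mul hdne] at hnd
      have hjne : P.coeff j ≠ 0 := by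
        intro h0
        rw [h0] at hdne
        simp at hdne
      refine ⟨?_, hjne⟩
      have := natDegree_derivative_lt (p := P.coeff j) (fun h => hdne (derivative_eq_zero.2 h))
      rw [natDegree_derivative] at hnd
      omega
  have hm0 : m ≠ 0 := by rw [hm]; exact hdeg
  -- the two evaluations of `c`
  have hcβ : c = β * m := by
    obtain ⟨j, rfl⟩ : ∃ j, m = j + 1 := ⟨m - 1, by omega⟩
    have h2 := congrArg (eval (0 : R)) (eqS j)
    simp only [eval_add, eval_mul, eval_C, eval_X, zero_mul, mul_zero, zero_add, eval_one, add_zero,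
      one_mul, eval_natCast] at h2
    have h3 : (P.coeff (j + 1)).eval 0 ≠ 0 := by
      have h4 : (P.coeff (j + 1)) = C ((P.coeff (j + 1)).coeff 0) :=
        eq_C_of_derivative_eq_zero hpm'
      rw [h4, eval_C]
      intro h5
      rw [h5, C_0] at h4
      exact hpm h4
    have h4 : (β * (j + 1) - c) * (P.coeff (j + 1)).eval 0 = 0 := by
      linear_combination h2
    rcases mul_eq_zero.1 h4 with h5 | h5
    · push_cast
      linear_combination -h5
    · exact absurd h5 h3
  have hcα : c = α * m := by
    obtain ⟨hn, hne⟩ := hdegs m le_rfl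
    rw [Nat.sub_self] at hn hne
    obtain ⟨j, hj⟩ : ∃ j, m = j + 1 := ⟨m - 1, by omega⟩
    have h2 := congrArg (fun F => F.coeff m) eq0
    rw [hj, coeff_C_mul, coeff_C_mul, coeff_X_mul, coeff_derivative, ← hj] at h2
    have h3 : (P.coeff 0).coeff m ≠ 0 := by
      have := leadingCoeff_ne_zero.2 hne
      rwa [leadingCoeff, hn] at this
    have h4 : (α * m - c) * (P.coeff 0).coeff m = 0 := by
      have h5 : ((j : R) + 1) = m := by rw [hj]; push_cast; ring
      rw [h5] at h2
      linear_combination h2
    rcases mul_eq_zero.1 h4 with h5 | h5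
    · linear_combination -h5
    · exact absurd h5 h3
  have hmR : (m : R) ≠ 0 := by exact_mod_cast hm0
  have hαβ : α = β := by
    have : (α - β) * m = 0 := by linear_combination hcβ - hcα
    rcases mul_eq_zero.1 this with h2 | h2
    · exact sub_eq_zero.1 h2
    · exact absurd h2 hmR
  refine ⟨hαβ, ?_⟩
  -- the diagonal
  have hc0 : c ≠ 0 := by rw [hcβ]; exact mul_ne_zero hβ hmR
  set S := P.eval (X : R[X]) with hS
  have hSeq : C α * (X * (1 + X) * derivative S) = C c * S := by
    have h2 := congrArg (eval (X : R[X])) hV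
    simp only [hQq, eval_add, eval_mul, eval_C, eval_X, eval_one, C_0, zero_mul, zero_add] at h2
    rw [hS, derivative_diag]
    rw [← hαβ] at h2
    linear_combination h2
  by_contra hSne
  by_cases hd : S.natDegree = 0
  · rw [derivative_eq_zero.2 hd, mul_zero, mul_zero] at hSeq
    rcases mul_eq_zero.1 hSeq.symm with h2 | h2
    · exact hc0 (C_eq_zero.1 h2)
    · exact hSne h2
  · have h2 := congrArg (fun F => F.coeff (S.natDegree + 1)) hSeq
    obtain ⟨d, hdd⟩ : ∃ d, S.natDegree = d + 1 := ⟨S.natDegree - 1, by omega⟩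
    have h3 : (C c * S).coeff (S.natDegree + 1) = 0 := by
      rw [coeff_C_mul, coeff_eq_zero_of_natDegree_lt (by omega : S.natDegree < S.natDegree + 1), mul_zero]
    have h4 : (C α * (X * (1 + X) * derivative S)).coeff (S.natDegree + 1) =
        α * (S.coeff (d + 1) * (d + 1)) := by
      rw [coeff_C_mul, mul_assoc, coeff_X_mul, hdd, add_mul, one_mul, coeff_add, coeff_X_mul,
        coeff_derivative, coeff_derivative,
        coeff_eq_zero_of_natDegree_lt (by omega : S.natDegree < d + 1 + 1)]
      ring
    rw [h3, h4] at h2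
    have h5 : S.coeff (d + 1) ≠ 0 := by
      rw [← hdd]; exact leadingCoeff_ne_zero.2 hSne
    have h6 : ((d : R) + 1) ≠ 0 := by exact_mod_cast Nat.succ_ne_zero d
    exact mul_ne_zero hα (mul_ne_zero h5 h6) h2

theorem dar_exp {P Q : R[X][X]} {α β : R} (hα : α ≠ 0)
    (hV : C (C α) * (C (1 + X) * (X * derivative P)) + C (C β) * (C X * DX P) = Q * P)
    (h1 : P.coeff 0 ≠ 0) : P.natDegree = 0 := by
  classical
  have hP : P ≠ 0 := by rintro rfl; exact h1 (coeff_zero 0)
  obtain ⟨m, hm⟩ : ∃ m, m = P.natDegree := ⟨_, rfl⟩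
  have hpm : P.coeff m ≠ 0 := by rw [hm]; exact leadingCoeff_ne_zero.2 hP
  have hpgt : ∀ j, m < j → P.coeff j = 0 := fun j hj => coeff_eq_zero_of_natDegree_lt (by omega)
  rw [← hm]
  by_contra hm0
  have hL : (C (C α) * (C (1 + X) * (X * derivative P)) + C (C β) * (C X * DX P)).natDegree ≤ m := by
    have hDX : (DX P).natDegree ≤ m := by
      rw [natDegree_le_iff_coeff_eq_zero]
      intro j hj
      rw [DX_coeff, hpgt j hj, derivative_zero]
    have hd : (derivative P).natDegree ≤ m - 1 := by
      have := natDegree_derivative_le P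
      omega
    refine (natDegree_add_le _ _).trans (max_le ?_ ?_)
    · refine (natDegree_C_mul_le _ _).trans ((natDegree_C_mul_le _ _).trans ?_)
      refine natDegree_mul_le.trans ?_
      rw [natDegree_X]
      omega
    · exact (natDegree_C_mul_le _ _).trans ((natDegree_C_mul_le _ _).trans hDX)
  have hQ : Q.natDegree = 0 := by
    by_cases hQ0 : Q = 0
    · rw [hQ0]; simp
    · rw [hV, natDegree_mul hQ0 hP] at hL
      omega
  obtain ⟨q, hQq⟩ : ∃ q : R[X], Q = C q := ⟨_, eq_C_of_natDegree_eq_zero hQ⟩
  subst hQq
  have eqj : ∀ j : ℕ, C α * ((1 + X) * ((j : R[X]) * P.coeff j)) + C β * (X * derivative (P.coeff j)) =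
      q * P.coeff j := by
    intro j
    have h2 := congrArg (fun F => F.coeff j) hV
    rw [coeff_add, coeff_C_mul, coeff_C_mul, coeff_C_mul, coeff_C_mul, coeff_C_mul, DX_coeff] at h2
    have e1 : (X * derivative P).coeff j = (j : R[X]) * P.coeff j := by
      cases j with
      | zero => simp
      | succ j =>
        rw [coeff_X_mul, coeff_derivative]
        push_cast
        ring
    rw [e1] at h2
    exact h2
  have hq : q.natDegree = 0 := by
    by_contra hne
    have hq00 : q ≠ 0 := by rintro rfl; simp at hne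
    have h2 := eqj 0
    simp only [Nat.cast_zero, zero_mul, mul_zero, zero_add] at h2
    have h3 : (q * P.coeff 0).natDegree ≤ (P.coeff 0).natDegree := by
      rw [← h2]
      exact (natDegree_C_mul_le _ _).trans nd_X_deriv
    rw [natDegree_mul hq00 h1] at h3
    omega
  obtain ⟨c, hc⟩ : ∃ c : R, q = C c := ⟨_, eq_C_of_natDegree_eq_zero hq⟩
  subst hc
  set p := P.coeff m with hp
  have h2 := congrArg (fun F => F.coeff (p.natDegree + 1)) (eqj m)
  have c1 : p.coeff (p.natDegree + 1) = 0 := coeff_eq_zero_of_natDegree_lt (by omega)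
  have c2 : (X * derivative p).coeff (p.natDegree + 1) = 0 :=
    coeff_eq_zero_of_natDegree_lt (lt_of_le_of_lt nd_X_deriv (by omega))
  rw [← hp, coeff_add, coeff_C_mul, coeff_C_mul, coeff_C_mul, c1, c2, add_mul, one_mul,
    coeff_add, coeff_X_mul, show (m : R[X]) = C (m : R) by simp, coeff_C_mul, coeff_C_mul,
    c1] at h2
  simp only [mul_zero, zero_add, add_zero] at h2
  have hmR : (m : R) ≠ 0 := by exact_mod_cast hm0
  exact mul_ne_zero hα (mul_ne_zero hmR (leadingCoeff_ne_zero.2 hpm)) h2

end Pool.Agent.Lib.MP_ec260d_ntU
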