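import Mathlib

/-!
# Power series with proportional logarithmic derivatives; a kernel lemma
-/

open PowerSeries

namespace Pool.Agent.Lib.MP_ec260d_ntU

theorem ps_const {f g : ℂ⟦X⟧} (hg : g ≠ 0) (h : d⁄dX ℂ f * g = f * d⁄dX ℂ g) :
    ∃ c : ℂ, f = C c * g := by
  by_cases hf : f = 0
  · exact ⟨0, by rw [hf, map_zero, zero_mul]⟩
  obtain ⟨a, f₁, hf₁, hf0⟩ : ∃ (a : ℕ) (f₁ : ℂ⟦X⟧), f = X ^ a * f₁ ∧ constantCoeff f₁ ≠ 0 :=
    ⟨f.order.toNat, divXPowOrder f, X_pow_order_mul_divXPowOrder.symm,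
      fun h0 => hf (constantCoeff_divXPowOrder_eq_zero_iff.1 h0)⟩
  obtain ⟨b, g₁, hg₁, hg0⟩ : ∃ (a : ℕ) (f₁ : ℂ⟦X⟧), g = X ^ a * f₁ ∧ constantCoeff f₁ ≠ 0 :=
    ⟨g.order.toNat, divXPowOrder g, X_pow_order_mul_divXPowOrder.symm,
      fun h0 => hg (constantCoeff_divXPowOrder_eq_zero_iff.1 h0)⟩
  have hXd : ∀ (n : ℕ) (p : ℂ⟦X⟧), X * d⁄dX ℂ (X ^ n * p) = X ^ n * ((n : ℂ⟦X⟧) * p + X * d⁄dX ℂ p) := by
    intro n p
    cases n with
    | zero => simp
    | succ n =>
      rw [Derivation.leibniz, derivative_pow, derivative_X]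
      simp only [smul_eq_mul, Nat.add_sub_cancel, mul_one]
      rw [pow_succ]
      push_cast
      ring
  have h1 : X ^ (a + b) * (((a : ℂ⟦X⟧) * f₁ + X * d⁄dX ℂ f₁) * g₁) =
      X ^ (a + b) * (f₁ * ((b : ℂ⟦X⟧) * g₁ + X * d⁄dX ℂ g₁)) := by
    have h2 : X * d⁄dX ℂ f * g = f * (X * d⁄dX ℂ g) := by linear_combination X * h
    rw [hf₁, hg₁, hXd, hXd] at h2
    rw [pow_add]
    linear_combination h2
  have hX : (X : ℂ⟦X⟧) ^ (a + b) ≠ 0 := pow_ne_zero _ X_ne_zero
  have h2 := mul_left_cancel₀ hX h1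
  have h3 := congrArg constantCoeff h2
  simp only [map_mul, map_add, constantCoeff_X, zero_mul, add_zero, map_natCast] at h3
  have hab : a = b := by
    have h4 : ((a : ℂ) - b) * (constantCoeff f₁ * constantCoeff g₁) = 0 := by linear_combination h3
    rcases mul_eq_zero.1 h4 with h5 | h5
    · exact_mod_cast sub_eq_zero.1 h5
    · exact absurd h5 (mul_ne_zero hf0 hg0)
  subst hab
  have h4 : d⁄dX ℂ f₁ * g₁ = f₁ * d⁄dX ℂ g₁ := by
    have h5 : X * (d⁄dX ℂ f₁ * g₁) = X * (f₁ * d⁄dX ℂ g₁) := by linear_combination h2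
    exact mul_left_cancel₀ X_ne_zero h5
  set q := f₁ * g₁⁻¹ with hq
  have hgi : g₁ * g₁⁻¹ = 1 := PowerSeries.mul_inv_cancel _ hg0
  have hdq : d⁄dX ℂ q = 0 := by
    rw [hq, Derivation.leibniz, derivative_inv']
    simp only [smul_eq_mul]
    linear_combination g₁⁻¹ ^ 2 * h4 - (d⁄dX ℂ f₁ * g₁⁻¹) * hgi
  have hqc : q = C (constantCoeff q) := by
    refine derivative.ext ?_ ?_
    · rw [hdq, derivative_C]
    · simp
  refine ⟨constantCoeff q, ?_⟩
  have h6 : f₁ = q * g₁ := by rw [hq]; linear_combination -f₁ * hgi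
  rw [hf₁, h6, hg₁]
  conv_lhs => rw [hqc]
  ring

open Polynomial in
/-- If `ε` is injective on the coefficients and the irreducible `P` is in its kernel, the kernel
is generated by `P`. -/
theorem ker_dvd {R F : Type} [CommRing R] [IsDomain R] [UniqueFactorizationMonoid R] [CommRing F]
    [IsDomain F] (e : R[X] →+* F) (hinj : ∀ a : R, e (Polynomial.C a) = 0 → a = 0) {P : R[X]}
    (hP : Irreducible P) (hP0 : e P = 0) {Q : R[X]} (hQ : e Q = 0) : P ∣ Q := by
  classical
  have hPne : P ≠ 0 := hP.ne_zero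
  have hdeg : P.natDegree ≠ 0 := by
    intro h0
    obtain ⟨a, ha⟩ : ∃ a, P = Polynomial.C a := ⟨_, eq_C_of_natDegree_eq_zero h0⟩
    rw [ha] at hP0
    have := hinj a hP0
    rw [ha, this, Polynomial.C_0] at hPne
    exact hPne rfl
  have hprim : P.IsPrimitive := hP.isPrimitive hdeg
  let K := FractionRing R
  by_contra hnd
  have hirr : Irreducible (P.map (algebraMap R K)) :=
    (hprim.irreducible_iff_irreducible_map_fraction_map (K := K)).1 hP
  have hndK : ¬ P.map (algebraMap R K) ∣ Q.map (algebraMap R K) := fun hd =>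
    hnd (hprim.dvd_of_fraction_map_dvd_fraction_map hd)
  have hcop : IsCoprime (P.map (algebraMap R K)) (Q.map (algebraMap R K)) :=
    (hirr.coprime_iff_not_dvd).2 hndK
  obtain ⟨u, v, huv⟩ := hcop
  -- clear denominators
  obtain ⟨s, hs, hs'⟩ := IsLocalization.integerNormalization_spec (nonZeroDivisors R) u
  obtain ⟨t, ht, ht'⟩ := IsLocalization.integerNormalization_spec (nonZeroDivisors R) v
  set U := IsLocalization.integerNormalization (nonZeroDivisors R) u with hU
  set V := IsLocalization.integerNormalization (nonZeroDivisors R) v with hV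
  have hkey : Polynomial.C (s * t) = Polynomial.C t * U * P + Polynomial.C s * V * Q := by
    apply Polynomial.map_injective (algebraMap R K) (IsFractionRing.injective _ _)
    simp only [Polynomial.map_mul, Polynomial.map_add, Polynomial.map_C, map_mul, Polynomial.C_mul]
    rw [Algebra.smul_def, Polynomial.algebraMap_apply] at hs' ht'
    rw [hs', ht']
    linear_combination -(Polynomial.C (algebraMap R K s) * Polynomial.C (algebraMap R K t)) * huv
  have h1 : e (Polynomial.C (s * t)) = 0 := by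
    rw [hkey, map_add, map_mul, map_mul _ (Polynomial.C s * V), hP0, hQ, mul_zero, mul_zero, add_zero]
  have h2 := hinj _ h1
  exact mul_ne_zero (nonZeroDivisors.ne_zero hs) (nonZeroDivisors.ne_zero ht) h2

end Pool.Agent.Lib.MP_ec260d_ntU
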