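import Mathlib
import Pool.Agent.Lib.MP_ec260d_ntU.Dar2

/-!
# Singling out two variables of a polynomial in several variables
-/

open Polynomial

namespace Pool.Agent.Lib.MP_ec260d_ntU

variable {σ : Type} [DecidableEq σ]

/-- `X i` becomes the inner variable, `X j` the outer one -/
noncomputable def Phi (i j : σ) : MvPolynomial σ ℂ →ₐ[ℂ] (MvPolynomial σ ℂ)[X][X] :=
  MvPolynomial.aeval (fun o => if o = i then C X else if o = j then X else C (C (MvPolynomial.X o)))

/-- back -/
noncomputable def Psi (i j : σ) : (MvPolynomial σ ℂ)[X][X] →+* MvPolynomial σ ℂ :=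
  eval₂RingHom (eval₂RingHom (RingHom.id _) (MvPolynomial.X i)) (MvPolynomial.X j)

theorem Phi_C (i j : σ) (a : ℂ) : Phi i j (MvPolynomial.C a) = C (C (MvPolynomial.C a)) := by
  unfold Phi
  rw [MvPolynomial.algHom_C]
  rfl

theorem Phi_X (i j o : σ) : Phi i j (MvPolynomial.X o) =
    if o = i then C X else if o = j then X else C (C (MvPolynomial.X o)) := by
  unfold Phi
  rw [MvPolynomial.aeval_X]

theorem Phi_Xi (i j : σ) : Phi i j (MvPolynomial.X i) = C X := by
  rw [Phi_X, if_pos rfl]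

theorem Phi_Xj {i j : σ} (hij : i ≠ j) : Phi i j (MvPolynomial.X j) = X := by
  rw [Phi_X, if_neg hij.symm, if_pos rfl]

theorem Psi_Phi {i j : σ} (P : MvPolynomial σ ℂ) : Psi i j (Phi i j P) = P := by
  have h : (Psi i j).comp ((Phi i j : MvPolynomial σ ℂ →ₐ[ℂ] _) : MvPolynomial σ ℂ →+* _) =
      RingHom.id _ := by
    refine MvPolynomial.ringHom_ext (fun a => ?_) (fun o => ?_)
    · show Psi i j (Phi i j (MvPolynomial.C a)) = _
      rw [Phi_C]
      simp [Psi]
    · show Psi i j (Phi i j (MvPolynomial.X o)) = _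
      rw [Phi_X]
      split_ifs with h1 h2
      · rw [h1]; simp [Psi]
      · rw [h2]; simp [Psi]
      · simp [Psi]
  exact congrFun (congrArg DFunLike.coe h) P

theorem Phi_inj (i j : σ) : Function.Injective (Phi i j) := by
  intro P Q h
  rw [← Psi_Phi (i := i) (j := j) P, h, Psi_Phi]

theorem Phi_diX {i j : σ} (hij : i ≠ j) (o : σ) :
    Phi i j (MvPolynomial.pderiv i (MvPolynomial.X o)) = DX (Phi i j (MvPolynomial.X o)) := by
  by_cases h1 : o = i
  · subst h1
    rw [MvPolynomial.pderiv_X_self, map_one, Phi_Xi, DX_C, derivative_X, C_1]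
  · rw [MvPolynomial.pderiv_X_of_ne h1, map_zero, Phi_X, if_neg h1]
    by_cases h2 : o = j
    · rw [if_pos h2, DX_X]
    · rw [if_neg h2, DX_C, derivative_C, C_0]

theorem Phi_di {i j : σ} (hij : i ≠ j) (P : MvPolynomial σ ℂ) :
    Phi i j (MvPolynomial.pderiv i P) = DX (Phi i j P) := by
  induction P using MvPolynomial.induction_on with
  | C a => rw [MvPolynomial.pderiv_C, map_zero, Phi_C, DX_C, derivative_C, C_0]
  | add p q hp hq => rw [map_add, map_add, map_add, DX_add, hp, hq]
  | mul_X p o hp =>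
    rw [MvPolynomial.pderiv_mul, map_add, map_mul, map_mul, map_mul, DX_mul, hp, Phi_diX hij]

theorem Phi_djX {i j : σ} (hij : i ≠ j) (o : σ) :
    Phi i j (MvPolynomial.pderiv j (MvPolynomial.X o)) = derivative (Phi i j (MvPolynomial.X o)) := by
  by_cases h1 : o = j
  · subst h1
    rw [MvPolynomial.pderiv_X_self, map_one, Phi_Xj hij, derivative_X]
  · rw [MvPolynomial.pderiv_X_of_ne h1, map_zero, Phi_X, if_neg h1]
    by_cases h2 : o = i
    · rw [if_pos h2, derivative_C]
    · rw [if_neg h2, derivative_C]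

theorem Phi_dj {i j : σ} (hij : i ≠ j) (P : MvPolynomial σ ℂ) :
    Phi i j (MvPolynomial.pderiv j P) = derivative (Phi i j P) := by
  induction P using MvPolynomial.induction_on with
  | C a => rw [MvPolynomial.pderiv_C, map_zero, Phi_C, derivative_C]
  | add p q hp hq => rw [map_add, map_add, map_add, derivative_add, hp, hq]
  | mul_X p o hp =>
    rw [MvPolynomial.pderiv_mul, map_add, map_mul, map_mul, map_mul, derivative_mul, hp, Phi_djX hij]

omit [DecidableEq σ] in
/-- an irreducible polynomial in the kernel is not divisible by a polynomial which is not a unit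
and not in the kernel -/
theorem irr_not_dvd {F : Type} [CommRing F] [IsDomain F] (e : MvPolynomial σ ℂ →+* F)
    {P : MvPolynomial σ ℂ} (hP : Irreducible P) (hP0 : e P = 0) {A : MvPolynomial σ ℂ}
    (hA : ¬ IsUnit A) (hA0 : e A ≠ 0) : ¬ A ∣ P := by
  rintro ⟨B, hB⟩
  rcases hP.isUnit_or_isUnit hB with h | h
  · exact hA h
  · have h1 : e A * e B = 0 := by rw [← map_mul, ← hB, hP0]
    rcases mul_eq_zero.1 h1 with h2 | h2
    · exact hA0 h2
    · exact (h.map e).ne_zero h2

theorem dvd_of_Phi {i j : σ} {P : MvPolynomial σ ℂ} {A : (MvPolynomial σ ℂ)[X][X]}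
    (h : A ∣ Phi i j P) : Psi i j A ∣ P := by
  obtain ⟨G, hG⟩ := h
  refine ⟨Psi i j G, ?_⟩
  rw [← map_mul, ← hG, Psi_Phi]

omit [DecidableEq σ] in
theorem X_not_unit (i : σ) : ¬ IsUnit (MvPolynomial.X i : MvPolynomial σ ℂ) := by
  intro h
  have := h.map (MvPolynomial.aeval (fun _ => (0 : ℂ)) : MvPolynomial σ ℂ →ₐ[ℂ] ℂ)
  simp at this

omit [DecidableEq σ] in
theorem X_sub_X_not_unit (i j : σ) :
    ¬ IsUnit (MvPolynomial.X j - MvPolynomial.X i : MvPolynomial σ ℂ) := by
  intro h
  have := h.map (MvPolynomial.aeval (fun _ => (0 : ℂ)) : MvPolynomial σ ℂ →ₐ[ℂ] ℂ)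
  simp at this

end Pool.Agent.Lib.MP_ec260d_ntU
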