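import Mathlib
import Pool.Agent.Lib.MP_ec260d_ntU.Dar2
import Pool.Agent.Lib.MP_ec260d_ntU.PSC
import Pool.Agent.Lib.MP_ec260d_ntU.Phi

/-!
# An exponential and several Lambert functions: the kernel is not a principal prime ideal
-/

open MvPolynomial

namespace Pool.Agent.Lib.MP_ec260d_ntU

variable {σ : Type} [Fintype σ] [DecidableEq σ]


omit [Fintype σ] [DecidableEq σ] in
theorem pd_comm (i j : σ) (P : MvPolynomial σ ℂ) : pderiv i (pderiv j P) = pderiv j (pderiv i P) := by
  classical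
  induction P using MvPolynomial.induction_on with
  | C a => simp
  | add p q hp hq => simp only [map_add, hp, hq]
  | mul_X p o hp =>
    have h1 : ∀ k l : σ, pderiv k (pderiv l (X o : MvPolynomial σ ℂ)) = 0 := by
      intro k l
      by_cases h : o = l
      · subst h; rw [pderiv_X_self, pderiv_one]
      · rw [pderiv_X_of_ne h, map_zero]
    simp only [pderiv_mul, map_add, h1, mul_zero, add_zero, hp]
    ring

omit [Fintype σ] [DecidableEq σ] in
theorem pd_dvd {o : σ} {P : MvPolynomial σ ℂ} (h : P ∣ pderiv o P) : pderiv o P = 0 := by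
  by_contra hne
  obtain ⟨Q, hQ⟩ := h
  have hP : P ≠ 0 := by rintro rfl; exact hne (map_zero _)
  have hQ0 : Q ≠ 0 := by rintro rfl; exact hne (by rw [hQ, mul_zero])
  have h1 : P.totalDegree ≤ (pderiv o P).totalDegree := by
    rw [hQ, totalDegree_mul_of_isDomain hP hQ0]
    omega
  obtain ⟨m, hm, hmd⟩ : ∃ m ∈ (pderiv o P).support, (m.sum fun _ e => e) = (pderiv o P).totalDegree := by
    have h2 : (pderiv o P).support.Nonempty := support_nonempty.2 hne
    obtain ⟨m, hm, hme⟩ := Finset.exists_mem_eq_sup _ h2 (fun s : σ →₀ ℕ => s.sum fun _ e => e)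
    exact ⟨m, hm, hme.symm⟩
  have h3 : m + Finsupp.single o 1 ∈ P.support := by
    rw [mem_support_iff] at hm ⊢
    intro h0
    rw [coeff_pderiv, h0, zero_mul] at hm
    exact hm rfl
  have h4 := le_totalDegree h3
  rw [Finsupp.sum_add_index' (fun _ => rfl) (fun _ _ _ => rfl), Finsupp.sum_single_index rfl, hmd] at h4
  omega

omit [Fintype σ] [DecidableEq σ] in
theorem const_of_pd {P : MvPolynomial σ ℂ} (h : ∀ o, pderiv o P = 0) : ∃ a : ℂ, P = C a := by
  classical
  refine ⟨coeff 0 P, ?_⟩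
  ext m
  rw [coeff_C]
  split_ifs with hm
  · rw [← hm]
  · obtain ⟨o, ho⟩ : ∃ o, m o ≠ 0 := by
      by_contra hcon
      push Not at hcon
      exact hm (Finsupp.ext fun o => (hcon o).symm)
    have h1 := congrArg (coeff (m - Finsupp.single o 1)) (h o)
    rw [coeff_pderiv, coeff_zero] at h1
    have h2 : m - Finsupp.single o 1 + Finsupp.single o 1 = m := by
      refine tsub_add_cancel_of_le ?_
      rw [Finsupp.single_le_iff]
      omega
    rw [h2] at h1
    rcases mul_eq_zero.1 h1 with h3 | h3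
    · exact h3
    · exfalso
      have : ((((m - Finsupp.single o 1 : σ →₀ ℕ) o) + 1 : ℕ) : ℂ) = 0 := by push_cast; exact h3
      have := Nat.cast_eq_zero.1 this
      omega

theorem chain (z : σ → PowerSeries ℂ) (Q : MvPolynomial σ ℂ) :
    (PowerSeries.derivative ℂ) (aeval z Q) = ∑ o, aeval z (pderiv o Q) * (PowerSeries.derivative ℂ) (z o) := by
  induction Q using MvPolynomial.induction_on with
  | C a =>
    simp only [pderiv_C, map_zero, zero_mul, Finset.sum_const_zero]
    rw [algHom_C]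
    exact Derivation.map_algebraMap _ _
  | add p q hp hq => simp only [map_add, hp, hq, add_mul, Finset.sum_add_distrib]
  | mul_X p o hp =>
    rw [map_mul, Derivation.leibniz, hp, aeval_X]
    simp only [smul_eq_mul, pderiv_mul, map_add, map_mul, aeval_X, add_mul, Finset.sum_add_distrib]
    have h1 : ∑ x, aeval z p * aeval z (pderiv x (X o : MvPolynomial σ ℂ)) * (PowerSeries.derivative ℂ) (z x) =
        aeval z p * (PowerSeries.derivative ℂ) (z o) := by
      rw [Finset.sum_eq_single o]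
      · rw [pderiv_X_self, map_one, mul_one]
      · intro b _ hb
        rw [pderiv_X_of_ne hb.symm, map_zero, mul_zero, zero_mul]
      · simp
    rw [h1, Finset.mul_sum, add_comm]
    congr 1
    exact Finset.sum_congr rfl fun x _ => by ring

/-- an exponential `z o₀` and Lambert functions `z o`, `o ≠ o₀` -/
structure Sys (o₀ : σ) (β : σ → ℂ) (z : σ → PowerSeries ℂ) : Prop where
  b0 : ∀ o, β o ≠ 0
  z0 : ∀ o, z o ≠ 0
  z1 : ∀ o, o ≠ o₀ → 1 + z o ≠ 0
  inj : ∀ o o', o ≠ o₀ → o' ≠ o₀ → z o = z o' → o = o'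
  de : (PowerSeries.derivative ℂ) (z o₀) = PowerSeries.C (β o₀) * z o₀
  dl : ∀ o, o ≠ o₀ → (PowerSeries.derivative ℂ) (z o) * (1 + z o) = PowerSeries.C (β o) * z o

/-- `∏_{j ∈ S} (1 + X_j)` -/
noncomputable def pr (S : Finset σ) : MvPolynomial σ ℂ := ∏ j ∈ S, (1 + X j)

omit [Fintype σ] in
theorem pd_pr {o : σ} {S : Finset σ} (h : o ∉ S) : pderiv o (pr S) = 0 := by
  unfold pr
  induction S using Finset.induction_on with
  | empty => simp
  | insert a S ha ih =>
    rw [Finset.prod_insert ha, pderiv_mul, ih (fun h' => h (Finset.mem_insert_of_mem h')), map_add,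
      pderiv_one, pderiv_X_of_ne (fun h' => h (by rw [← h']; exact Finset.mem_insert_self _ _))]
    ring

/-- `m_o = X_o ∏_{j ≠ o₀, o} (1 + X_j)` -/
noncomputable def mo (o₀ o : σ) : MvPolynomial σ ℂ := X o * pr ((Finset.univ.erase o₀).erase o)

/-- the vector field -/
noncomputable def vf (o₀ : σ) (β : σ → ℂ) (Q : MvPolynomial σ ℂ) : MvPolynomial σ ℂ :=
  ∑ o, C (β o) * (mo o₀ o * pderiv o Q)

omit [Fintype σ] in
theorem pr_erase {S : Finset σ} {o : σ} (h : o ∈ S) : pr S = (1 + X o) * pr (S.erase o) := by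
  unfold pr
  rw [← Finset.mul_prod_erase _ _ h]

theorem pd_mo {o₀ o l : σ} (ho : o ≠ o₀) : (1 + X o) * pderiv o (mo o₀ l) =
    mo o₀ l + if l = o then pr ((Finset.univ.erase o₀).erase o) else 0 := by
  unfold mo
  split_ifs with h
  · subst h
    rw [pderiv_mul, pderiv_X_self, pd_pr (Finset.notMem_erase _ _)]
    ring
  · have h1 : o ∈ (Finset.univ.erase o₀).erase l :=
      Finset.mem_erase.2 ⟨fun h' => h h'.symm, Finset.mem_erase.2 ⟨ho, Finset.mem_univ _⟩⟩
    rw [pr_erase h1, pderiv_mul, pderiv_mul, pd_pr (Finset.notMem_erase _ _), pderiv_X_of_ne h,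
      map_add, pderiv_one, pderiv_X_self]
    ring

theorem pd_mo0 {o₀ l : σ} : pderiv o₀ (mo o₀ l) =
    if l = o₀ then pr (Finset.univ.erase o₀) else 0 := by
  unfold mo
  have h1 : o₀ ∉ (Finset.univ.erase o₀).erase l := by simp
  split_ifs with h
  · subst h
    rw [pderiv_mul, pderiv_X_self, pd_pr h1, Finset.erase_eq_of_notMem (Finset.notMem_erase l _)]
    ring
  · rw [pderiv_mul, pderiv_X_of_ne h, pd_pr h1]
    ring

theorem pd_vf {o₀ o : σ} (ho : o ≠ o₀) (β : σ → ℂ) (P : MvPolynomial σ ℂ) :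
    (1 + X o) * pderiv o (vf o₀ β P) = (1 + X o) * vf o₀ β (pderiv o P) + vf o₀ β P +
      C (β o) * (pr ((Finset.univ.erase o₀).erase o) * pderiv o P) := by
  have h1 : ∀ l, (1 + X o) * pderiv o (C (β l) * (mo o₀ l * pderiv l P)) =
      (1 + X o) * (C (β l) * (mo o₀ l * pderiv l (pderiv o P))) + C (β l) * (mo o₀ l * pderiv l P) +
      if l = o then C (β o) * (pr ((Finset.univ.erase o₀).erase o) * pderiv o P) else 0 := by
    intro l
    have h2 := pd_mo (l := l) ho
    rw [pderiv_C_mul, pderiv_mul, pd_comm l o]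
    split_ifs with h
    · subst h
      rw [if_pos rfl] at h2
      linear_combination (C (β l) * pderiv l P) * h2
    · rw [if_neg h] at h2
      linear_combination (C (β l) * pderiv l P) * h2
  unfold vf
  rw [map_sum, Finset.mul_sum, Finset.sum_congr rfl fun l _ => h1 l, Finset.sum_add_distrib,
    Finset.sum_add_distrib, Finset.sum_ite_eq' Finset.univ o, if_pos (Finset.mem_univ _),
    Finset.mul_sum]

theorem pd_vf0 {o₀ : σ} (β : σ → ℂ) (P : MvPolynomial σ ℂ) :
    pderiv o₀ (vf o₀ β P) = vf o₀ β (pderiv o₀ P) +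
      C (β o₀) * (pr (Finset.univ.erase o₀) * pderiv o₀ P) := by
  have h1 : ∀ l, pderiv o₀ (C (β l) * (mo o₀ l * pderiv l P)) =
      C (β l) * (mo o₀ l * pderiv l (pderiv o₀ P)) +
      if l = o₀ then C (β o₀) * (pr (Finset.univ.erase o₀) * pderiv o₀ P) else 0 := by
    intro l
    have h2 := pd_mo0 (o₀ := o₀) (l := l)
    rw [pderiv_C_mul, pderiv_mul, pd_comm l o₀]
    split_ifs with h
    · subst h
      rw [if_pos rfl] at h2
      linear_combination (C (β l) * pderiv l P) * h2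
    · rw [if_neg h] at h2
      linear_combination (C (β l) * pderiv l P) * h2
  unfold vf
  rw [map_sum, Finset.sum_congr rfl fun l _ => h1 l, Finset.sum_add_distrib,
    Finset.sum_ite_eq' Finset.univ o₀, if_pos (Finset.mem_univ _)]


section step

variable {o₀ : σ} {β : σ → ℂ} {z : σ → PowerSeries ℂ}

omit [Fintype σ] [DecidableEq σ] in
theorem pr_ne (h : Sys o₀ β z) {S : Finset σ} (hS : o₀ ∉ S) : aeval z (pr S) ≠ 0 := by
  unfold pr
  rw [map_prod]
  refine Finset.prod_ne_zero_iff.2 fun j hj => ?_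
  rw [map_add, map_one, aeval_X]
  exact h.z1 j (fun h' => hS (h' ▸ hj))

theorem mo_ne (h : Sys o₀ β z) (o : σ) : aeval z (mo o₀ o) ≠ 0 := by
  unfold mo
  rw [map_mul, aeval_X]
  exact mul_ne_zero (h.z0 o) (pr_ne h (by simp))

theorem pi_d (h : Sys o₀ β z) (o : σ) :
    aeval z (pr (Finset.univ.erase o₀)) * (PowerSeries.derivative ℂ) (z o) = PowerSeries.C (β o) * aeval z (mo o₀ o) := by
  unfold mo
  by_cases ho : o = o₀
  · subst ho
    rw [h.de, Finset.erase_eq_of_notMem (Finset.notMem_erase o _), map_mul, aeval_X]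
    ring
  · have h1 : o ∈ Finset.univ.erase o₀ := Finset.mem_erase.2 ⟨ho, Finset.mem_univ _⟩
    rw [pr_erase h1, map_mul, map_mul, map_add, map_one, aeval_X]
    linear_combination (aeval z (pr ((Finset.univ.erase o₀).erase o))) * h.dl o ho

theorem pi_chain (h : Sys o₀ β z) (Q : MvPolynomial σ ℂ) :
    aeval z (pr (Finset.univ.erase o₀)) * (PowerSeries.derivative ℂ) (aeval z Q) = aeval z (vf o₀ β Q) := by
  rw [chain, Finset.mul_sum]
  unfold vf
  rw [map_sum]
  refine Finset.sum_congr rfl fun o _ => ?_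
  have h1 : aeval z (C (β o)) = PowerSeries.C (β o) := by
    rw [algHom_C]; rfl
  rw [map_mul, map_mul, h1]
  linear_combination (aeval z (pderiv o Q)) * pi_d h o

theorem step_ode (h : Sys o₀ β z) {P : MvPolynomial σ ℂ} (hP0 : aeval z P = 0)
    (hker : ∀ Q, aeval z Q = 0 → P ∣ Q) : ∃ c : PowerSeries ℂ, ∀ o,
      aeval z (pr (Finset.univ.erase o₀)) * (PowerSeries.derivative ℂ) (aeval z (mo o₀ o * pderiv o P)) =
      ((PowerSeries.derivative ℂ) (aeval z (pr (Finset.univ.erase o₀))) + c) * aeval z (mo o₀ o * pderiv o P) := by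
  set p := aeval z (pr (Finset.univ.erase o₀)) with hp
  have hv : aeval z (vf o₀ β P) = 0 := by
    rw [← pi_chain h, hP0, map_zero, mul_zero]
  obtain ⟨c, hc⟩ := hker _ hv
  refine ⟨aeval z c, fun o => ?_⟩
  have hdc : aeval z (pderiv o (vf o₀ β P)) = aeval z (pderiv o P) * aeval z c := by
    rw [hc, pderiv_mul, map_add, map_mul, map_mul, hP0, zero_mul, add_zero]
  have hC : ∀ b, aeval z (C b) = PowerSeries.C b := fun b => by rw [algHom_C]; rfl
  by_cases ho : o = o₀
  · subst ho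
    have h1 := congrArg (aeval z) (pd_vf0 (o₀ := o) β P)
    rw [hdc, map_add, ← pi_chain h, map_mul, map_mul, hC, ← hp] at h1
    have h2 : aeval z (mo o o) = z o * p := by
      unfold mo
      rw [Finset.erase_eq_of_notMem (Finset.notMem_erase o _), map_mul, aeval_X, hp]
    rw [map_mul, h2]
    set q := aeval z (pderiv o P) with hq
    simp only [Derivation.leibniz, smul_eq_mul]
    rw [h.de]
    linear_combination -(z o * p) * h1
  · have h1 : (1 + z o) * (aeval z (pderiv o P) * aeval z c) = (1 + z o) *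
        (p * (PowerSeries.derivative ℂ) (aeval z (pderiv o P))) + 0 + PowerSeries.C (β o) *
        (aeval z (pr ((Finset.univ.erase o₀).erase o)) * aeval z (pderiv o P)) := by
      have h2 := congrArg (aeval z) (pd_vf ho β P)
      simp only [map_add, map_mul, hv, hdc, map_one, aeval_X, ← pi_chain h, hC] at h2
      exact h2
    have e1 : aeval z (1 + X o : MvPolynomial σ ℂ) = 1 + z o := by
      rw [map_add, map_one, aeval_X]
    set r := aeval z (pr ((Finset.univ.erase o₀).erase o)) with hr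
    have h2 : aeval z (mo o₀ o) = z o * r := by
      unfold mo
      rw [map_mul, aeval_X, hr]
    have h3 : p = (1 + z o) * r := by
      rw [hp, pr_erase (Finset.mem_erase.2 ⟨ho, Finset.mem_univ _⟩), map_mul, e1, hr]
    have h4 : (PowerSeries.derivative ℂ) p = (PowerSeries.derivative ℂ) (z o) * r + (1 + z o) * (PowerSeries.derivative ℂ) r := by
      rw [h3, Derivation.leibniz, map_add, Derivation.map_one_eq_zero, zero_add]
      simp only [smul_eq_mul]
      ring
    rw [map_mul, h2]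
    set q := aeval z (pderiv o P) with hq
    simp only [Derivation.leibniz, smul_eq_mul]
    have h5 := h.dl o ho
    have hz1 : (1 + z o) ≠ 0 := h.z1 o ho
    apply mul_left_cancel₀ hz1
    rw [h4]
    rw [h3] at h1 ⊢
    linear_combination -(z o * r) * h1 + r ^ 2 * q * h5

omit [Fintype σ] [DecidableEq σ] in
theorem prime_dvd {P M A : MvPolynomial σ ℂ} (hirr : Irreducible P)
    (hP0 : aeval z P = 0) (hM : aeval z M ≠ 0) (hd : P ∣ M * A) : P ∣ A := by
  rcases hirr.prime.dvd_or_dvd hd with h1 | h1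
  · obtain ⟨B, hB⟩ := h1
    exact absurd (by rw [hB, map_mul, hP0, zero_mul]) hM
  · exact h1

omit [Fintype σ] in
theorem phi_nd {i j : σ} (hij : i ≠ j) {P : MvPolynomial σ ℂ} (hj : pderiv j P ≠ 0) :
    (Phi i j P).natDegree ≠ 0 := by
  intro h0
  have h1 := Phi_dj hij P
  rw [Polynomial.derivative_eq_zero.2 h0, ← map_zero (Phi i j)] at h1
  exact hj (Phi_inj i j h1)

omit [Fintype σ] in
theorem phi_c0 {i j : σ} {P : MvPolynomial σ ℂ} (hirr : Irreducible P)
    (hP0 : aeval z P = 0) (hj : z j ≠ 0) : (Phi i j P).coeff 0 ≠ 0 := by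
  intro h0
  have h1 := dvd_of_Phi (Polynomial.X_dvd_iff.2 h0)
  have h2 : Psi i j (Polynomial.X) = X j := by simp [Psi]
  rw [h2] at h1
  exact irr_not_dvd (aeval z : MvPolynomial σ ℂ →ₐ[ℂ] PowerSeries ℂ).toRingHom hirr hP0
    (X_not_unit j) (by show aeval z (X j) ≠ 0; rw [aeval_X]; exact hj) h1

omit [Fintype σ] in
theorem phi_m0 {i j : σ} {P : MvPolynomial σ ℂ} (hirr : Irreducible P)
    (hP0 : aeval z P = 0) (hi : z i ≠ 0) :
    (Phi i j P).map (Polynomial.evalRingHom 0) ≠ 0 := by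
  intro h0
  have h1 : Polynomial.C Polynomial.X ∣ Phi i j P := by
    rw [Polynomial.C_dvd_iff_dvd_coeff]
    intro k
    rw [Polynomial.X_dvd_iff, Polynomial.coeff_zero_eq_eval_zero]
    have h2 := congrArg (fun F => Polynomial.coeff F k) h0
    simpa [Polynomial.coeff_map] using h2
  have h1 := dvd_of_Phi h1
  have h2 : Psi i j (Polynomial.C Polynomial.X) = X i := by simp [Psi]
  rw [h2] at h1
  exact irr_not_dvd (aeval z : MvPolynomial σ ℂ →ₐ[ℂ] PowerSeries ℂ).toRingHom hirr hP0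
    (X_not_unit i) (by show aeval z (X i) ≠ 0; rw [aeval_X]; exact hi) h1

omit [Fintype σ] [DecidableEq σ] in
theorem aux_lam {A : Type} [CommRing A] {f xi xj di dj P Q : A}
    (h : xj * (1 + xi) * dj - f * (xi * (1 + xj) * di) = P * Q) :
    -f * (xi * (1 + xj) * di) + 1 * (xj * (1 + xi) * dj) = Q * P := by linear_combination h

omit [Fintype σ] [DecidableEq σ] in
theorem aux_exp {A : Type} [CommRing A] {a b xi xj di dj P Q : A}
    (h : a * (xj * (1 + xi) * dj) - b * (xi * di) = P * Q) :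
    a * ((1 + xi) * (xj * dj)) + -b * (xi * di) = Q * P := by linear_combination h

theorem pair_lam (h : Sys o₀ β z) {P : MvPolynomial σ ℂ} (hirr : Irreducible P)
    (hP0 : aeval z P = 0) {i j : σ} (hij : i ≠ j) (hi : i ≠ o₀) (hj : j ≠ o₀) {f : ℂ} (hf : f ≠ 0)
    (hd : P ∣ mo o₀ j * pderiv j P - C f * (mo o₀ i * pderiv i P)) (hdj : pderiv j P ≠ 0) : False := by
  have hiL : i ∈ (Finset.univ.erase o₀).erase j :=
    Finset.mem_erase.2 ⟨hij, Finset.mem_erase.2 ⟨hi, Finset.mem_univ _⟩⟩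
  have hjL : j ∈ (Finset.univ.erase o₀).erase i :=
    Finset.mem_erase.2 ⟨hij.symm, Finset.mem_erase.2 ⟨hj, Finset.mem_univ _⟩⟩
  have e1 : mo o₀ j = X j * ((1 + X i) * pr (((Finset.univ.erase o₀).erase j).erase i)) := by
    unfold mo; rw [pr_erase hiL]
  have e2 : mo o₀ i = X i * ((1 + X j) * pr (((Finset.univ.erase o₀).erase j).erase i)) := by
    unfold mo; rw [pr_erase hjL, Finset.erase_right_comm]
  have hd2 : P ∣ pr (((Finset.univ.erase o₀).erase j).erase i) *
      (X j * (1 + X i) * pderiv j P - C f * (X i * (1 + X j) * pderiv i P)) := by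
    refine hd.trans (dvd_of_eq ?_)
    rw [e1, e2]; ring
  obtain ⟨Q, hQ⟩ := prime_dvd hirr hP0 (pr_ne h (by simp)) hd2
  have hV := congrArg (Phi i j) hQ
  simp only [map_sub, map_mul, map_add, map_one, Phi_Xi, Phi_Xj hij, Phi_di hij, Phi_dj hij, Phi_C] at hV
  obtain ⟨-, h2⟩ := dar_lam (P := Phi i j P) (Q := Phi i j Q) (α := -C f) (β := 1)
    (neg_ne_zero.2 (C_ne_zero.2 hf)) one_ne_zero (by
      simp only [map_neg, map_one]
      exact aux_lam hV) (phi_m0 hirr hP0 (h.z0 i)) (phi_c0 hirr hP0 (h.z0 j)) (phi_nd hij hdj)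
  have h3 : (Polynomial.X - Polynomial.C Polynomial.X) ∣ Phi i j P := Polynomial.dvd_iff_isRoot.2 h2
  have h4 := dvd_of_Phi h3
  have h5 : Psi i j (Polynomial.X - Polynomial.C Polynomial.X) = X j - X i := by simp [Psi]
  rw [h5] at h4
  refine irr_not_dvd (aeval z : MvPolynomial σ ℂ →ₐ[ℂ] PowerSeries ℂ).toRingHom hirr hP0
    (X_sub_X_not_unit i j) ?_ h4
  show aeval z (X j - X i) ≠ 0
  rw [map_sub, aeval_X, aeval_X]
  exact fun h6 => hij (h.inj i j hi hj (sub_eq_zero.1 h6).symm)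

theorem pair_exp (h : Sys o₀ β z) {P : MvPolynomial σ ℂ} (hirr : Irreducible P)
    (hP0 : aeval z P = 0) {i : σ} (hi : i ≠ o₀) {a b : ℂ} (ha : a ≠ 0)
    (hd : P ∣ C a * (mo o₀ o₀ * pderiv o₀ P) - C b * (mo o₀ i * pderiv i P))
    (hdj : pderiv o₀ P ≠ 0) : False := by
  have hiL : i ∈ (Finset.univ.erase o₀) := Finset.mem_erase.2 ⟨hi, Finset.mem_univ _⟩
  have e1 : mo o₀ o₀ = X o₀ * ((1 + X i) * pr ((Finset.univ.erase o₀).erase i)) := by
    unfold mo; rw [Finset.erase_eq_of_notMem (Finset.notMem_erase o₀ _), pr_erase hiL]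
  have hd2 : P ∣ pr ((Finset.univ.erase o₀).erase i) *
      (C a * (X o₀ * (1 + X i) * pderiv o₀ P) - C b * (X i * pderiv i P)) := by
    refine hd.trans (dvd_of_eq ?_)
    rw [e1]; unfold mo; ring
  obtain ⟨Q, hQ⟩ := prime_dvd hirr hP0 (pr_ne h (by simp)) hd2
  have hV := congrArg (Phi i o₀) hQ
  simp only [map_sub, map_mul, map_add, map_one, Phi_Xi, Phi_Xj hi, Phi_di hi, Phi_dj hi, Phi_C] at hV
  exact phi_nd hi hdj (dar_exp (P := Phi i o₀ P) (Q := Phi i o₀ Q) (α := C a) (β := -C b)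
    (C_ne_zero.2 ha) (by
      simp only [map_neg, map_one, map_add]
      exact aux_exp hV) (phi_c0 hirr hP0 (h.z0 o₀)))

theorem step (h : Sys o₀ β z) {P : MvPolynomial σ ℂ} (hirr : Irreducible P)
    (hP0 : aeval z P = 0) (hker : ∀ Q, aeval z Q = 0 → P ∣ Q) : False := by
  obtain ⟨c, hc⟩ := step_ode h hP0 hker
  -- a non-vanishing derivative
  obtain ⟨o₁, ho₁⟩ : ∃ o₁, aeval z (pderiv o₁ P) ≠ 0 := by
    by_contra hcon
    push Not at hcon
    obtain ⟨a, ha⟩ := const_of_pd fun o => pd_dvd (hker _ (hcon o))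
    by_cases ha0 : a = 0
    · rw [ha0, C_0] at ha
      exact hirr.ne_zero ha
    · refine hirr.not_isUnit ?_
      rw [ha]
      exact (isUnit_iff_ne_zero.2 ha0).map C
  set p := aeval z (pr (Finset.univ.erase o₀)) with hp
  have hp0 : p ≠ 0 := pr_ne h (by simp)
  have ht₁ : aeval z (mo o₀ o₁ * pderiv o₁ P) ≠ 0 := by
    rw [map_mul]; exact mul_ne_zero (mo_ne h o₁) ho₁
  have hf : ∀ o, ∃ f : ℂ, aeval z (mo o₀ o * pderiv o P) = PowerSeries.C f *
      aeval z (mo o₀ o₁ * pderiv o₁ P) := by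
    intro o
    refine ps_const ht₁ ?_
    apply mul_left_cancel₀ hp0
    linear_combination (aeval z (mo o₀ o₁ * pderiv o₁ P)) * hc o -
      (aeval z (mo o₀ o * pderiv o P)) * hc o₁
  choose f hf using hf
  have hC : ∀ b, aeval z (C b) = PowerSeries.C b := fun b => by rw [algHom_C]; rfl
  have hsum : ∑ o, β o * f o = 0 := by
    have hv : aeval z (vf o₀ β P) = 0 := by
      rw [← pi_chain h, hP0, map_zero, mul_zero]
    unfold vf at hv
    rw [map_sum] at hv
    have h1 : ∀ o ∈ Finset.univ, aeval z (C (β o) * (mo o₀ o * pderiv o P)) =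
        PowerSeries.C (β o * f o) * aeval z (mo o₀ o₁ * pderiv o₁ P) := by
      intro o _
      rw [map_mul (aeval z) (C (β o)), hf o, hC, map_mul PowerSeries.C]
      ring
    rw [Finset.sum_congr rfl h1, ← Finset.sum_mul, ← map_sum] at hv
    rcases mul_eq_zero.1 hv with h2 | h2
    · exact (map_eq_zero_iff _ PowerSeries.C_injective).1 h2
    · exact absurd h2 ht₁
  have hf₁ : f o₁ = 1 := by
    have h1 := hf o₁
    have h2 : (PowerSeries.C (f o₁) - 1) * aeval z (mo o₀ o₁ * pderiv o₁ P) = 0 := by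
      linear_combination -h1
    rcases mul_eq_zero.1 h2 with h3 | h3
    · have h4 : PowerSeries.C (f o₁) = PowerSeries.C (1 : ℂ) := by
        rw [map_one]; exact sub_eq_zero.1 h3
      exact PowerSeries.C_injective h4
    · exact absurd h3 ht₁
  obtain ⟨o₂, hne, hf₂⟩ : ∃ o₂, o₂ ≠ o₁ ∧ f o₂ ≠ 0 := by
    by_contra hcon
    push Not at hcon
    rw [Finset.sum_eq_single o₁ (fun o _ ho => by rw [hcon o ho, mul_zero]) (by simp), hf₁, mul_one] at hsum
    exact h.b0 o₁ hsum
  have hd : P ∣ mo o₀ o₂ * pderiv o₂ P - C (f o₂) * (mo o₀ o₁ * pderiv o₁ P) := by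
    apply hker
    rw [map_sub, hf o₂, map_mul (aeval z) (C (f o₂)), hC, sub_self]
  have hp₁ : pderiv o₁ P ≠ 0 := by
    intro h0; rw [h0, mul_zero, map_zero] at ht₁; exact ht₁ rfl
  have hp₂ : pderiv o₂ P ≠ 0 := by
    intro h0
    have h1 := hf o₂
    rw [h0, mul_zero, map_zero] at h1
    refine mul_ne_zero ?_ ht₁ h1.symm
    rw [Ne, map_eq_zero_iff _ PowerSeries.C_injective]
    exact hf₂
  by_cases e₁ : o₁ = o₀
  · subst e₁
    refine pair_exp h hirr hP0 hne (a := -f o₂) (b := -1) (neg_ne_zero.2 hf₂) (hd.trans (dvd_of_eq ?_)) hp₁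
    simp only [map_neg, map_one]
    ring
  · by_cases e₂ : o₂ = o₀
    · subst e₂
      refine pair_exp h hirr hP0 hne.symm (a := 1) (b := f o₂) one_ne_zero (hd.trans (dvd_of_eq ?_)) hp₂
      simp only [map_one]
      ring
    · exact pair_lam h hirr hP0 hne.symm e₁ e₂ hf₂ hd hp₂

end step

end Pool.Agent.Lib.MP_ec260d_ntU
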