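import Mathlib
import Pool.Agent.Lib.MP_ec260d_ntU.Step

/-!
# An exponential and different Lambert functions are algebraically independent
-/

open MvPolynomial

namespace Pool.Agent.Lib.MP_ec260d_ntU

/-- the functions of every system are algebraically independent -/
def Good (σ : Type) : Prop := ∀ (o₀ : σ) (β : σ → ℂ) (z : σ → PowerSeries ℂ), Sys o₀ β z →
  ∀ Q : MvPolynomial σ ℂ, aeval z Q = 0 → Q = 0

theorem exists_irr {σ F : Type} [CommRing F] [IsDomain F] (e : MvPolynomial σ ℂ →+* F)
    {Q : MvPolynomial σ ℂ} (hQ : Q ≠ 0) (h0 : e Q = 0) : ∃ P, Irreducible P ∧ e P = 0 := by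
  classical
  obtain ⟨f, hf, hfa⟩ := UniqueFactorizationMonoid.exists_prime_factors Q hQ
  have h1 : e f.prod = 0 := by
    obtain ⟨u, hu⟩ := hfa
    have h2 := congrArg e hu
    rw [map_mul, h0] at h2
    rcases mul_eq_zero.1 h2 with h3 | h3
    · exact h3
    · exact absurd h3 (u.isUnit.map e).ne_zero
  rw [map_multiset_prod, Multiset.prod_eq_zero_iff, Multiset.mem_map] at h1
  obtain ⟨P, hP, hP0⟩ := h1
  exact ⟨P, (hf P hP).irreducible, hP0⟩

theorem optStep {α : Type} [Fintype α] {o₀ : Option α} {β : Option α → ℂ}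
    {z : Option α → PowerSeries ℂ} (h : Sys o₀ β z)
    (hinj : ∀ a : MvPolynomial α ℂ, aeval (fun o => z (some o)) a = 0 → a = 0)
    (Q : MvPolynomial (Option α) ℂ) (hQ : aeval z Q = 0) : Q = 0 := by
  classical
  by_contra hne
  obtain ⟨P, hP, hP0⟩ := exists_irr (aeval z : MvPolynomial (Option α) ℂ →ₐ[ℂ] PowerSeries ℂ).toRingHom
    hne hQ
  let φ := optionEquivLeft ℂ α
  let e' : Polynomial (MvPolynomial α ℂ) →+* PowerSeries ℂ :=
    (aeval z : MvPolynomial (Option α) ℂ →ₐ[ℂ] PowerSeries ℂ).toRingHom.comp
      (φ.symm : Polynomial (MvPolynomial α ℂ) →+* MvPolynomial (Option α) ℂ)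
  have he : ∀ R : MvPolynomial (Option α) ℂ, e' (φ R) = aeval z R := by
    intro R
    show aeval z (φ.symm (φ R)) = _
    rw [AlgEquiv.symm_apply_apply]
  have hren : ∀ a : MvPolynomial α ℂ, φ (rename some a) = Polynomial.C a := by
    intro a
    induction a using MvPolynomial.induction_on with
    | C a => rw [rename_C]; exact optionEquivLeft_C ℂ α a
    | add p q hp hq => rw [map_add, map_add, hp, hq, Polynomial.C_add]
    | mul_X p o hp => rw [map_mul, map_mul, hp, rename_X, Polynomial.C_mul]; congr 1; exact optionEquivLeft_X_some ℂ α o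
  have hinj' : ∀ a : MvPolynomial α ℂ, e' (Polynomial.C a) = 0 → a = 0 := by
    intro a ha
    rw [← hren, he, aeval_rename] at ha
    exact hinj a ha
  refine step h hP hP0 fun R hR => ?_
  have h1 := ker_dvd e' hinj' (P := φ P) ((MulEquiv.irreducible_iff φ).2 hP) (by rw [he]; exact hP0)
    (Q := φ R) (by rw [he]; exact hR)
  exact (map_dvd_iff φ).1 h1

theorem good_equiv {α β : Type} (e : α ≃ β) (h : Good α) : Good β := by
  intro o₀ b z hs Q hQ
  have h1 : Sys (e.symm o₀) (fun o => b (e o)) (fun o => z (e o)) := by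
    have hne : ∀ o, o ≠ e.symm o₀ → e o ≠ o₀ := fun o ho h' => ho (by rw [← h', Equiv.symm_apply_apply])
    refine ⟨fun o => hs.b0 _, fun o => hs.z0 _, fun o ho => hs.z1 _ (hne o ho), ?_, ?_, fun o ho => hs.dl _ (hne o ho)⟩
    · intro o o' ho ho' hz
      exact e.injective (hs.inj _ _ (hne o ho) (hne o' ho') hz)
    · simpa using hs.de
  have h2 := h _ _ _ h1 (rename e.symm Q) (by
    rw [aeval_rename]
    have : (fun o => z (e o)) ∘ e.symm = z := by
      funext o; simp
    rw [this, hQ])
  exact rename_injective _ e.symm.injective (by rw [h2, map_zero])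

theorem good_option {α : Type} [Fintype α] (h : Good α) : Good (Option α) := by
  classical
  have key : ∀ (o₀ : α) (β : Option α → ℂ) (z : Option α → PowerSeries ℂ), Sys (some o₀) β z →
      ∀ Q : MvPolynomial (Option α) ℂ, aeval z Q = 0 → Q = 0 := by
    intro o₀ β z hs
    refine optStep hs (h o₀ (fun o => β (some o)) (fun o => z (some o)) ?_)
    have hne : ∀ o : α, o ≠ o₀ → some o ≠ some o₀ := fun o ho h' => ho (Option.some_injective _ h')
    exact ⟨fun o => hs.b0 _, fun o => hs.z0 _, fun o ho => hs.z1 _ (hne o ho),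
      fun o o' ho ho' hz => Option.some_injective _ (hs.inj _ _ (hne o ho) (hne o' ho') hz), hs.de,
      fun o ho => hs.dl _ (hne o ho)⟩
  intro o₀ β z hs
  cases o₀ with
  | some a => exact key a β z hs
  | none =>
    by_cases hα : Nonempty α
    · obtain ⟨a⟩ := hα
      let e : Option α ≃ Option α := Equiv.swap none (some a)
      have he0 : e (some a) = none := Equiv.swap_apply_right _ _
      intro Q hQ
      have hne : ∀ o, o ≠ some a → e o ≠ none := fun o ho h' => ho (e.injective (by rw [h', he0]))
      have h1 : Sys (some a) (fun o => β (e o)) (fun o => z (e o)) := by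
        refine ⟨fun o => hs.b0 _, fun o => hs.z0 _, fun o ho => hs.z1 _ (hne o ho), ?_, ?_, fun o ho => hs.dl _ (hne o ho)⟩
        · intro o o' ho ho' hz
          exact e.injective (hs.inj _ _ (hne o ho) (hne o' ho') hz)
        · rw [he0]; exact hs.de
      have h2 := key _ _ _ h1 (rename e.symm Q) (by
        rw [aeval_rename]
        have : (fun o => z (e o)) ∘ e.symm = z := by
          funext o; simp
        rw [this, hQ])
      exact rename_injective _ e.symm.injective (by rw [h2, map_zero])
    · have hα' : IsEmpty α := not_nonempty_iff.1 hα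
      refine optStep hs fun a ha => ?_
      obtain ⟨c, hc⟩ := C_surjective α a
      rw [← hc, algHom_C] at ha
      have h3 : PowerSeries.C c = 0 := ha
      rw [← hc, (map_eq_zero_iff _ PowerSeries.C_injective).1 h3, map_zero]

theorem good (σ : Type) [Fintype σ] : Good σ := by
  refine Fintype.induction_empty_option (P := fun σ _ => Good σ) ?_ ?_ ?_ σ
  · intro α β _ e h
    exact good_equiv e h
  · intro o₀
    exact o₀.elim
  · intro α _ h
    exact good_option h

end Pool.Agent.Lib.MP_ec260d_ntU
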