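import Mathlib
import Pool.Agent.Lib.MP_ec260d_ntU.AX

/-!
# Exponentials are linearly independent over the field of the Lambert functions
-/

open MvPolynomial

namespace Pool.Agent.Lib.MP_ec260d_ntU


/-- `e^{aX}` -/
noncomputable def EE (a : ℂ) : PowerSeries ℂ := PowerSeries.rescale a (PowerSeries.exp ℂ)

theorem EE_add (a b : ℂ) : EE (a + b) = EE a * EE b := (PowerSeries.exp_mul_exp_eq_exp_add a b).symm

theorem EE_zero : EE 0 = 1 := by
  unfold EE
  rw [PowerSeries.rescale_zero_apply, PowerSeries.constantCoeff_exp, map_one]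

theorem EE_ne (a : ℂ) : EE a ≠ 0 := by
  intro h
  have h1 := EE_add a (-a)
  rw [add_neg_cancel, EE_zero, h, zero_mul] at h1
  exact one_ne_zero h1

theorem dEE (a : ℂ) : (PowerSeries.derivative ℂ) (EE a) = PowerSeries.C a * EE a := by
  ext n
  unfold EE
  rw [PowerSeries.coeff_derivative, PowerSeries.coeff_C_mul, PowerSeries.coeff_rescale,
    PowerSeries.coeff_rescale, PowerSeries.coeff_exp, PowerSeries.coeff_exp]
  simp only [eq_ratCast]
  push_cast
  rw [Nat.factorial_succ]
  have h1 : ((n : ℂ) + 1) ≠ 0 := by exact_mod_cast Nat.succ_ne_zero n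
  have h2 : ((n.factorial : ℕ) : ℂ) ≠ 0 := by exact_mod_cast Nat.factorial_ne_zero n
  push_cast
  field_simp
  ring

variable {ι : Type}

/-- different Lambert functions -/
structure Lam (b : ι → ℂ) (w : ι → PowerSeries ℂ) : Prop where
  b0 : ∀ o, b o ≠ 0
  z0 : ∀ o, w o ≠ 0
  z1 : ∀ o, 1 + w o ≠ 0
  inj : ∀ o o', w o = w o' → o = o'
  dl : ∀ o, (PowerSeries.derivative ℂ) (w o) * (1 + w o) = PowerSeries.C (b o) * w o

theorem Lam.sys {b : ι → ℂ} {w : ι → PowerSeries ℂ} (h : Lam b w) {l : ℂ} (hl : l ≠ 0) :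
    Sys (none : Option ι) (fun o => o.elim l b) (fun o => o.elim (EE l) w) := by
  refine ⟨?_, ?_, ?_, ?_, dEE l, ?_⟩
  · rintro (_ | o)
    · exact hl
    · exact h.b0 o
  · rintro (_ | o)
    · exact EE_ne l
    · exact h.z0 o
  · rintro (_ | o) ho
    · exact absurd rfl ho
    · exact h.z1 o
  · rintro (_ | o) (_ | o') ho ho' hz
    · rfl
    · exact absurd rfl ho
    · exact absurd rfl ho'
    · rw [h.inj o o' hz]
  · rintro (_ | o) ho
    · exact absurd rfl ho
    · exact h.dl o

variable [Fintype ι] {b : ι → ℂ} {w : ι → PowerSeries ℂ}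

theorem lam_alg (h : Lam b w) (Q : MvPolynomial ι ℂ) (hQ : aeval w Q = 0) : Q = 0 := by
  have h1 := good (Option ι) _ _ _ (h.sys (l := 1) one_ne_zero) (rename some Q) (by
    rw [aeval_rename]; exact hQ)
  exact rename_injective _ (Option.some_injective _) (by rw [h1, map_zero])

theorem lam_exp (h : Lam b w) {l : ℂ} (hl : l ≠ 0) {Q R : MvPolynomial ι ℂ}
    (hQ : aeval w Q * EE l = aeval w R) : Q = 0 := by
  have h1 := good (Option ι) _ _ _ (h.sys hl) (rename some Q * X none - rename some R) (by
    rw [map_sub, map_mul, aeval_rename, aeval_rename, aeval_X]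
    show aeval w Q * EE l - aeval w R = 0
    rw [hQ, sub_self])
  have hren : ∀ a : MvPolynomial ι ℂ, optionEquivLeft ℂ ι (rename some a) = Polynomial.C a := by
    intro a
    induction a using MvPolynomial.induction_on with
    | C a => rw [rename_C]; exact optionEquivLeft_C ℂ ι a
    | add p q hp hq => rw [map_add, map_add, hp, hq, Polynomial.C_add]
    | mul_X p o hp => rw [map_mul, map_mul, hp, rename_X, Polynomial.C_mul]; congr 1; exact optionEquivLeft_X_some ℂ ι o
  have h2 := congrArg (optionEquivLeft ℂ ι) h1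
  rw [map_sub, map_mul, hren, hren, optionEquivLeft_X_none, map_zero] at h2
  have h3 := congrArg (fun F => Polynomial.coeff F 1) h2
  simpa using h3

variable [DecidableEq ι]

/-- the vector field for Lambert functions alone -/
noncomputable def vw (b : ι → ℂ) (Q : MvPolynomial ι ℂ) : MvPolynomial ι ℂ :=
  ∑ o, C (b o) * (X o * pr (Finset.univ.erase o) * pderiv o Q)

theorem vw_chain (h : Lam b w) (Q : MvPolynomial ι ℂ) :
    aeval w (pr Finset.univ) * (PowerSeries.derivative ℂ) (aeval w Q) = aeval w (vw b Q) := by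
  rw [chain, Finset.mul_sum]
  unfold vw
  rw [map_sum]
  refine Finset.sum_congr rfl fun o _ => ?_
  have h1 : aeval w (C (b o)) = PowerSeries.C (b o) := by
    rw [algHom_C]; rfl
  rw [map_mul, map_mul, map_mul, h1, pr_erase (Finset.mem_univ o), map_mul, map_add, map_one, aeval_X]
  linear_combination (aeval w (pderiv o Q) * aeval w (pr (Finset.univ.erase o))) * h.dl o

omit [Fintype ι] [DecidableEq ι] in
theorem prw_ne (h : Lam b w) (S : Finset ι) : aeval w (pr S) ≠ 0 := by
  unfold pr
  rw [map_prod]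
  refine Finset.prod_ne_zero_iff.2 fun j _ => ?_
  rw [map_add, map_one, aeval_X]
  exact h.z1 j

theorem lin_exp (h : Lam b w) : ∀ (n : ℕ) (S : Finset ℂ), S.card = n → ∀ R : ℂ → MvPolynomial ι ℂ,
    ∑ e ∈ S, EE e * aeval w (R e) = 0 → ∀ e ∈ S, R e = 0 := by
  intro n
  induction n with
  | zero =>
    intro S hS R _ e he
    rw [Finset.card_eq_zero.1 hS] at he
    simp at he
  | succ n ih =>
    intro S hS R hR
    by_contra hcon
    push Not at hcon
    obtain ⟨e₁, he₁, hA⟩ := hcon
    set A := R e₁ with hAd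
    set a := aeval w A with ha
    have ha0 : a ≠ 0 := fun h0 => hA (lam_alg h A h0)
    set p := aeval w (pr (Finset.univ : Finset ι)) with hp
    have hp0 : p ≠ 0 := prw_ne h _
    have hC : ∀ c, aeval w (C c) = PowerSeries.C c := fun c => by rw [algHom_C]; rfl
    let T : ℂ → MvPolynomial ι ℂ := fun e => C (e - e₁) * pr Finset.univ * A * R e + A * vw b (R e) -
      vw b A * R e
    have hT : ∀ e, aeval w (T e) = PowerSeries.C (e - e₁) * p * a * aeval w (R e) +
        a * (p * (PowerSeries.derivative ℂ) (aeval w (R e))) - p * (PowerSeries.derivative ℂ) a * aeval w (R e) := by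
      intro e
      show aeval w (C (e - e₁) * pr Finset.univ * A * R e + A * vw b (R e) - vw b A * R e) = _
      simp only [map_sub, map_add, map_mul, hC, ← vw_chain h]
      rfl
    have h1 : ∑ e ∈ S, EE e * aeval w (T e) = 0 := by
      have h2 : (PowerSeries.derivative ℂ) (∑ e ∈ S, EE e * aeval w (R e)) = 0 := by rw [hR, map_zero]
      rw [map_sum] at h2
      have h3 : ∀ e ∈ S, EE e * aeval w (T e) = p * a * (PowerSeries.derivative ℂ) (EE e * aeval w (R e)) -
          (p * (PowerSeries.derivative ℂ) a + PowerSeries.C e₁ * p * a) * (EE e * aeval w (R e)) := by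
        intro e _
        rw [hT, Derivation.leibniz, dEE, map_sub]
        simp only [smul_eq_mul]
        ring
      rw [Finset.sum_congr rfl h3, Finset.sum_sub_distrib, ← Finset.mul_sum, ← Finset.mul_sum, h2, hR,
        mul_zero, mul_zero, sub_zero]
    have h4 : aeval w (T e₁) = 0 := by
      rw [hT, sub_self, map_zero]
      ring
    have h5 : ∑ e ∈ S.erase e₁, EE e * aeval w (T e) = 0 := by
      rw [← Finset.add_sum_erase S _ he₁, h4, mul_zero, zero_add] at h1
      exact h1
    have h6 := ih (S.erase e₁) (by rw [Finset.card_erase_of_mem he₁, hS]; rfl) T h5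
    have h7 : ∀ e ∈ S.erase e₁, R e = 0 := by
      intro e he
      have hne : e - e₁ ≠ 0 := sub_ne_zero.2 (Finset.ne_of_mem_erase he)
      have h8 : aeval w (T e) = 0 := by rw [h6 e he, map_zero]
      rw [hT] at h8
      have h9 : (PowerSeries.derivative ℂ) (aeval w (R e) * EE (e - e₁)) * a = (aeval w (R e) * EE (e - e₁)) * (PowerSeries.derivative ℂ) a := by
        apply mul_left_cancel₀ hp0
        rw [Derivation.leibniz, dEE]
        simp only [smul_eq_mul]
        linear_combination EE (e - e₁) * h8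
      obtain ⟨c, hc⟩ := ps_const ha0 h9
      refine lam_exp h hne (R := C c * A) ?_
      rw [hc, map_mul, hC]
    rw [← Finset.add_sum_erase S _ he₁, Finset.sum_eq_zero (fun e he => by rw [h7 e he, map_zero, mul_zero]),
      add_zero] at hR
    exact mul_ne_zero (EE_ne e₁) ha0 hR

end Pool.Agent.Lib.MP_ec260d_ntU
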