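import Mathlib
import Pool.Agent.Lib.MP_ec260d_ntU.LinExp

/-!
# The Taylor homomorphism, and the common zeros of the derivatives of a generic sum
-/

open MvPolynomial

namespace Pool.Agent.Lib.MP_ec260d_ntU


section taylor

variable {V : Type} (d : Derivation ℂ (MvPolynomial V ℂ) (MvPolynomial V ℂ)) (p : V → ℂ)

/-- the Taylor series at the point `p` along the derivation `d` -/
noncomputable def TT (Q : MvPolynomial V ℂ) : PowerSeries ℂ :=
  PowerSeries.mk fun n => (n.factorial : ℂ)⁻¹ * aeval p (d^[n] Q)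

theorem TT_coeff (n : ℕ) (Q : MvPolynomial V ℂ) :
    PowerSeries.coeff n (TT d p Q) = (n.factorial : ℂ)⁻¹ * aeval p (d^[n] Q) := by
  unfold TT
  rw [PowerSeries.coeff_mk]

theorem TT_deriv (Q : MvPolynomial V ℂ) : (PowerSeries.derivative ℂ) (TT d p Q) = TT d p (d Q) := by
  ext n
  rw [PowerSeries.coeff_derivative, TT_coeff, TT_coeff, Function.iterate_succ_apply, Nat.factorial_succ]
  have h1 : ((n : ℂ) + 1) ≠ 0 := by exact_mod_cast Nat.succ_ne_zero n
  have h2 : ((n.factorial : ℕ) : ℂ) ≠ 0 := by exact_mod_cast Nat.factorial_ne_zero n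
  push_cast
  field_simp

theorem TT_cc (Q : MvPolynomial V ℂ) : PowerSeries.constantCoeff (TT d p Q) = aeval p Q := by
  rw [← PowerSeries.coeff_zero_eq_constantCoeff_apply, TT_coeff]
  simp

theorem iter_add (n : ℕ) (P Q : MvPolynomial V ℂ) : d^[n] (P + Q) = d^[n] P + d^[n] Q := by
  induction n generalizing P Q with
  | zero => rfl
  | succ n ih => rw [Function.iterate_succ_apply, map_add, ih]; rfl

theorem TT_add (P Q : MvPolynomial V ℂ) : TT d p (P + Q) = TT d p P + TT d p Q := by
  ext n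
  rw [map_add, TT_coeff, TT_coeff, TT_coeff, iter_add, map_add, mul_add]

theorem iter_zero (n : ℕ) : d^[n] (0 : MvPolynomial V ℂ) = 0 := by
  induction n with
  | zero => rfl
  | succ n ih => rw [Function.iterate_succ_apply, map_zero, ih]

theorem TT_zero : TT d p 0 = 0 := by
  ext n
  rw [TT_coeff, iter_zero, map_zero, mul_zero, map_zero]

theorem TT_of_const {Q : MvPolynomial V ℂ} (h : d Q = 0) : TT d p Q = PowerSeries.C (aeval p Q) := by
  refine PowerSeries.derivative.ext ?_ ?_
  · rw [TT_deriv, h, TT_zero, PowerSeries.derivative_C]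
  · rw [TT_cc]; simp

theorem TT_mul (P Q : MvPolynomial V ℂ) : TT d p (P * Q) = TT d p P * TT d p Q := by
  ext n
  induction n generalizing P Q with
  | zero =>
    rw [PowerSeries.coeff_zero_eq_constantCoeff_apply, PowerSeries.coeff_zero_eq_constantCoeff_apply,
      map_mul, TT_cc, TT_cc, TT_cc, map_mul]
  | succ n ih =>
    have h1 : ((n : ℂ) + 1) ≠ 0 := by exact_mod_cast Nat.succ_ne_zero n
    apply mul_right_cancel₀ h1
    rw [← PowerSeries.coeff_derivative, ← PowerSeries.coeff_derivative, TT_deriv, Derivation.leibniz,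
      Derivation.leibniz, TT_deriv, TT_deriv, TT_add]
    simp only [smul_eq_mul, map_add, ih]

theorem TT_aeval (Q : MvPolynomial V ℂ) : TT d p Q = aeval (fun v => TT d p (X v)) Q := by
  induction Q using MvPolynomial.induction_on with
  | C a =>
    rw [TT_of_const d p (by rw [← algebraMap_eq]; exact d.map_algebraMap a), algHom_C, algHom_C]
    rfl
  | add P Q hP hQ => rw [TT_add, hP, hQ, map_add]
  | mul_X P o hP => rw [TT_mul, hP, map_mul, aeval_X]

end taylor

section gen

variable {ι A : Type} [Fintype ι] (a₀ : A → ℕ) (a₁ : A → ι → ℕ)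

/-- the polynomial `φ_a = a₀ + ∑ a_i b_i (1 - y_i)` -/
noncomputable def ph (a : A) : MvPolynomial ((ι ⊕ ι) ⊕ A) ℂ :=
  (a₀ a : MvPolynomial ((ι ⊕ ι) ⊕ A) ℂ) +
    ∑ i, (a₁ a i : MvPolynomial ((ι ⊕ ι) ⊕ A) ℂ) * (X (.inl (.inl i)) * (1 - X (.inl (.inr i))))

/-- the values of the derivation at the variables -/
noncomputable def dv : (ι ⊕ ι) ⊕ A → MvPolynomial ((ι ⊕ ι) ⊕ A) ℂ
  | .inl (.inl _) => 0
  | .inl (.inr i) => -(X (.inl (.inl i)) * X (.inl (.inr i)) ^ 2 * (1 - X (.inl (.inr i))))
  | .inr a => ph a₀ a₁ a * X (.inr a)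

/-- the derivation -/
noncomputable def dd : Derivation ℂ (MvPolynomial ((ι ⊕ ι) ⊕ A) ℂ) (MvPolynomial ((ι ⊕ ι) ⊕ A) ℂ) :=
  mkDerivation ℂ (dv a₀ a₁)

/-- the derivatives of the generic sum -/
noncomputable def GG [Fintype A] (j : ℕ) : MvPolynomial ((ι ⊕ ι) ⊕ A) ℂ :=
  (dd a₀ a₁)^[j] (∑ a : A, X (.inr a))

theorem dd_b (i : ι) : dd a₀ a₁ (X (.inl (.inl i))) = 0 := by
  unfold dd; rw [mkDerivation_X]; rfl

theorem dd_y (i : ι) : dd a₀ a₁ (X (.inl (.inr i))) =
    -(X (.inl (.inl i)) * X (.inl (.inr i)) ^ 2 * (1 - X (.inl (.inr i)))) := by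
  unfold dd; rw [mkDerivation_X]; rfl

theorem dd_c (a : A) : dd a₀ a₁ (X (.inr a)) = ph a₀ a₁ a * X (.inr a) := by
  unfold dd; rw [mkDerivation_X]; rfl

variable [Fintype A]

omit [Fintype A] [Fintype ι] in
/-- logarithmic derivative of a product of powers -/
theorem d_prod (w : ι → PowerSeries ℂ) (g : ι → PowerSeries ℂ) (h : ∀ i, (PowerSeries.derivative ℂ) (w i) = g i * w i)
    (n : ι → ℕ) (S : Finset ι) : (PowerSeries.derivative ℂ) (∏ i ∈ S, w i ^ n i) = (∑ i ∈ S, (n i : PowerSeries ℂ) * g i) *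
      ∏ i ∈ S, w i ^ n i := by
  classical
  have hp : ∀ i, (PowerSeries.derivative ℂ) (w i ^ n i) = (n i : PowerSeries ℂ) * g i * w i ^ n i := by
    intro i
    cases hn : n i with
    | zero => simp
    | succ m =>
      rw [PowerSeries.derivative_pow, h]
      simp only [Nat.add_sub_cancel]
      push_cast
      ring
  induction S using Finset.induction_on with
  | empty => simp
  | insert a S ha ih =>
    rw [Finset.prod_insert ha, Finset.sum_insert ha, Derivation.leibniz, ih, hp]
    simp only [smul_eq_mul]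
    ring

theorem jet_zero (hinj : Function.Injective fun a => (a₀ a, a₁ a)) (p : (ι ⊕ ι) ⊕ A → ℂ)
    (hb : ∀ i, p (.inl (.inl i)) ≠ 0) (hy0 : ∀ i, p (.inl (.inr i)) ≠ 0)
    (hy1 : ∀ i, p (.inl (.inr i)) ≠ 1)
    (hd : ∀ i j, p (.inl (.inl i)) = p (.inl (.inl j)) → p (.inl (.inr i)) = p (.inl (.inr j)) → i = j)
    (hG : ∀ j, aeval p (GG a₀ a₁ j) = 0) (a : A) : p (.inr a) = 0 := by
  classical
  set D := dd a₀ a₁ with hD
  set b : ι → ℂ := fun i => p (.inl (.inl i)) with hbd
  set y : ι → PowerSeries ℂ := fun i => TT D p (X (.inl (.inr i))) with hyd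
  have hycc : ∀ i, PowerSeries.constantCoeff (y i) = p (.inl (.inr i)) := by
    intro i; rw [hyd]; simp only [TT_cc, aeval_X]
  have hbT : ∀ i, TT D p (X (.inl (.inl i))) = PowerSeries.C (b i) := by
    intro i
    rw [TT_of_const D p (dd_b a₀ a₁ i), aeval_X]
  have hone : TT D p 1 = 1 := by
    rw [TT_aeval, map_one]
  have hsub : ∀ P Q, TT D p (P - Q) = TT D p P - TT D p Q := by
    intro P Q
    rw [TT_aeval, map_sub, ← TT_aeval, ← TT_aeval]
  have hneg : ∀ P, TT D p (-P) = -TT D p P := by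
    intro P
    rw [TT_aeval, map_neg, ← TT_aeval]
  have hsum : ∀ {κ : Type} (S : Finset κ) (F : κ → MvPolynomial ((ι ⊕ ι) ⊕ A) ℂ),
      TT D p (∑ x ∈ S, F x) = ∑ x ∈ S, TT D p (F x) := by
    intro κ S F
    rw [TT_aeval, map_sum]
    exact Finset.sum_congr rfl fun x _ => by rw [← TT_aeval]
  have hnat : ∀ n : ℕ, TT D p (n : MvPolynomial ((ι ⊕ ι) ⊕ A) ℂ) = (n : PowerSeries ℂ) := by
    intro n
    rw [TT_aeval, map_natCast]
  have hydiff : ∀ i, (PowerSeries.derivative ℂ) (y i) = -(PowerSeries.C (b i) * y i ^ 2 * (1 - y i)) := by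
    intro i
    show (PowerSeries.derivative ℂ) (TT D p (X (.inl (.inr i)))) = _
    rw [TT_deriv, hD, dd_y, ← hD, hneg, TT_mul, TT_mul, hbT, hsub, hone, pow_two, TT_mul]
    rw [hyd]
    ring
  have hyi : ∀ i, y i * (y i)⁻¹ = 1 := by
    intro i
    refine PowerSeries.mul_inv_cancel _ ?_
    rw [hycc]; exact hy0 i
  have hyne : ∀ i, y i ≠ 0 := by
    intro i h0
    have := hyi i
    rw [h0, zero_mul] at this
    exact zero_ne_one this
  have hyine : ∀ i, (y i)⁻¹ ≠ 0 := by
    intro i h0
    have := hyi i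
    rw [h0, mul_zero] at this
    exact zero_ne_one this
  set w : ι → PowerSeries ℂ := fun i => (y i)⁻¹ - 1 with hwd
  have hw1 : ∀ i, 1 + w i = (y i)⁻¹ := by intro i; rw [hwd]; ring
  have hwD : ∀ i, (PowerSeries.derivative ℂ) (w i) = PowerSeries.C (b i) * (1 - y i) := by
    intro i
    rw [hwd]
    simp only
    rw [map_sub, Derivation.map_one_eq_zero, PowerSeries.derivative_inv', hydiff]
    linear_combination (PowerSeries.C (b i) * (1 - y i) * (y i * (y i)⁻¹ + 1)) * hyi i
  have hwD' : ∀ i, (PowerSeries.derivative ℂ) (w i) = (PowerSeries.C (b i) * y i) * w i := by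
    intro i
    rw [hwD]
    rw [hwd]
    linear_combination -(PowerSeries.C (b i)) * hyi i
  have hlam : Lam b w := by
    refine ⟨hb, ?_, ?_, ?_, ?_⟩
    · intro i h0
      have h1 : (y i)⁻¹ = 1 := by
        have : (y i)⁻¹ - 1 = 0 := h0
        linear_combination this
      have h2 := hyi i
      rw [h1, mul_one] at h2
      have h3 := hycc i
      rw [h2, map_one] at h3
      exact hy1 i h3.symm
    · intro i
      rw [hw1]; exact hyine i
    · intro i j hij
      have h1 : (y i)⁻¹ = (y j)⁻¹ := by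
        rw [← hw1, ← hw1, hij]
      have h2 : y i = y j := by
        apply mul_right_cancel₀ (hyine i)
        rw [hyi i]
        rw [h1, hyi j]
      have h3 : PowerSeries.C (b i) * (1 - y i) = PowerSeries.C (b j) * (1 - y j) := by
        rw [← hwD, ← hwD, hij]
      have h4 : (1 - y i) ≠ 0 := by
        intro h0
        have h5 := hycc i
        rw [show y i = 1 by linear_combination -h0, map_one] at h5
        exact hy1 i h5.symm
      rw [← h2] at h3
      have h5 := PowerSeries.C_injective (mul_right_cancel₀ h4 h3)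
      refine hd i j h5 ?_
      rw [← hycc, ← hycc, h2]
    · intro i
      rw [hw1, hwD]
      rw [hwd]
      linear_combination -(PowerSeries.C (b i)) * hyi i
  -- the coefficients
  set c : A → PowerSeries ℂ := fun a => TT D p (X (.inr a)) with hcd
  set e : A → ℂ := fun a => (a₀ a : ℂ) + ∑ i, (a₁ a i : ℂ) * b i with hed
  have hcD : ∀ a, (PowerSeries.derivative ℂ) (c a) = ((a₀ a : PowerSeries ℂ) + ∑ i, (a₁ a i : PowerSeries ℂ) *
      (PowerSeries.C (b i) * (1 - y i))) * c a := by
    intro a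
    show (PowerSeries.derivative ℂ) (TT D p (X (.inr a))) = _
    rw [TT_deriv, hD, dd_c, ← hD, TT_mul]
    unfold ph
    rw [TT_add, hnat, hsum]
    congr 2
    refine Finset.sum_congr rfl fun i _ => ?_
    rw [TT_mul, hnat, TT_mul, hbT, hsub, hone]
  have hH : ∀ a, ∃ g : ℂ, c a * ∏ i, w i ^ a₁ a i = PowerSeries.C g * EE (e a) := by
    intro a
    refine ps_const (EE_ne _) ?_
    rw [Derivation.leibniz, d_prod w _ hwD', hcD, dEE]
    simp only [smul_eq_mul]
    have h1 : (a₀ a : PowerSeries ℂ) + ∑ i, (a₁ a i : PowerSeries ℂ) * (PowerSeries.C (b i) * (1 - y i)) +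
        ∑ i, (a₁ a i : PowerSeries ℂ) * (PowerSeries.C (b i) * y i) = PowerSeries.C (e a) := by
      rw [add_assoc, ← Finset.sum_add_distrib, hed]
      simp only [map_add, map_sum, map_mul, map_natCast]
      congr 1
      exact Finset.sum_congr rfl fun i _ => by ring
    linear_combination (c a * (∏ i, w i ^ a₁ a i) * EE (e a)) * h1
  choose g hg using hH
  have hwne : ∀ i, w i ≠ 0 := hlam.z0
  -- it suffices that `g a = 0`
  suffices hsuf : g a = 0 by
    have h1 := hg a
    rw [hsuf, map_zero, zero_mul] at h1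
    rcases mul_eq_zero.1 h1 with h2 | h2
    · have h3 : PowerSeries.constantCoeff (c a) = p (.inr a) := by
        rw [hcd]; simp only [TT_cc, aeval_X]
      rw [← h3, h2, map_zero]
    · exact absurd h2 (Finset.prod_ne_zero_iff.2 fun i _ => pow_ne_zero _ (hwne i))
  have hsum0 : ∑ a, c a = 0 := by
    rw [hcd, ← hsum]
    ext n
    rw [TT_coeff]
    have := hG n
    unfold GG at this
    rw [← hD] at this
    rw [this, mul_zero, map_zero]
  obtain ⟨M, hM⟩ : ∃ M : ℕ, ∀ a i, a₁ a i ≤ M := by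
    refine ⟨∑ a, ∑ i, a₁ a i, fun a i => ?_⟩
    exact (Finset.single_le_sum (f := fun i => a₁ a i) (fun _ _ => Nat.zero_le _) (Finset.mem_univ i)).trans
      (Finset.single_le_sum (f := fun a => ∑ i, a₁ a i) (fun _ _ => Nat.zero_le _) (Finset.mem_univ a))
  let m : A → (ι →₀ ℕ) := fun a => Finsupp.equivFunOnFinite.symm fun i => M - a₁ a i
  have hm : ∀ a i, m a i = M - a₁ a i := fun a i => rfl
  have hrel : ∑ a, EE (e a) * aeval w (monomial (m a) (g a)) = 0 := by
    have h1 : (∑ a, c a) * ∏ i, w i ^ M = 0 := by rw [hsum0, zero_mul]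
    rw [Finset.sum_mul] at h1
    rw [← h1]
    refine Finset.sum_congr rfl fun a _ => ?_
    rw [aeval_monomial, Finsupp.prod_fintype _ _ (fun i => pow_zero _)]
    have h2 : ∏ i, w i ^ M = (∏ i, w i ^ a₁ a i) * ∏ i, w i ^ m a i := by
      rw [← Finset.prod_mul_distrib]
      refine Finset.prod_congr rfl fun i _ => ?_
      rw [← pow_add, hm, Nat.add_sub_cancel' (hM a i)]
    have h3 : algebraMap ℂ (PowerSeries ℂ) (g a) = PowerSeries.C (g a) := rfl
    rw [h2, h3]
    linear_combination -(∏ i, w i ^ m a i) * hg a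
  set R : ℂ → MvPolynomial ι ℂ := fun x => ∑ a ∈ Finset.univ.filter (fun a => e a = x),
    monomial (m a) (g a) with hR
  have hrel2 : ∑ x ∈ Finset.univ.image e, EE x * aeval w (R x) = 0 := by
    rw [← hrel, ← Finset.sum_fiberwise_of_maps_to (s := Finset.univ) (t := Finset.univ.image e) (g := e)
      (fun a _ => Finset.mem_image_of_mem e (Finset.mem_univ a))]
    refine Finset.sum_congr rfl fun x _ => ?_
    rw [hR]
    simp only
    rw [map_sum, Finset.mul_sum]
    refine Finset.sum_congr rfl fun a ha => ?_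
    rw [(Finset.mem_filter.1 ha).2]
  have h1 := lin_exp hlam _ _ rfl R hrel2 (e a) (Finset.mem_image_of_mem e (Finset.mem_univ a))
  have h2 := congrArg (coeff (m a)) h1
  rw [hR] at h2
  simp only at h2
  rw [coeff_sum, coeff_zero, Finset.sum_eq_single a] at h2
  · rw [coeff_monomial, if_pos rfl] at h2
    exact h2
  · intro a' ha' hne
    rw [coeff_monomial, if_neg]
    intro hmm
    apply hne
    have h3 : a₁ a' = a₁ a := by
      funext i
      have h4 := congrArg (fun f => f i) hmm
      simp only [hm] at h4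
      have h5 := hM a' i
      have h6 := hM a i
      omega
    apply hinj
    have h4 := (Finset.mem_filter.1 ha').2
    rw [hed] at h4
    simp only [h3] at h4
    have h5 : (a₀ a' : ℂ) = a₀ a := by linear_combination h4
    simp only [h3]
    rw [Nat.cast_injective h5]
  · intro h3
    exact absurd (by simp) h3

end gen

end Pool.Agent.Lib.MP_ec260d_ntU
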