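import Mathlib
import Pool.Agent.Lib.MP_ec260d_ntU.Jet

/-!
# A lower bound for the derivatives of a generic sum, from the Nullstellensatz
-/

open MvPolynomial

namespace Pool.Agent.Lib.MP_ec260d_ntU

theorem poly_bdd {V : Type} (Q : MvPolynomial V ℂ) (Bd : ℝ) : ∃ C : ℝ, 0 < C ∧ ∀ p : V → ℂ,
    (∀ v, ‖p v‖ ≤ Bd) → ‖aeval p Q‖ ≤ C := by
  induction Q using MvPolynomial.induction_on with
  | C a =>
    refine ⟨‖a‖ + 1, by positivity, fun p _ => ?_⟩
    rw [algHom_C]
    simp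
  | add P Q hP hQ =>
    obtain ⟨C₁, h₁, h₁'⟩ := hP
    obtain ⟨C₂, h₂, h₂'⟩ := hQ
    refine ⟨C₁ + C₂, by positivity, fun p hp => ?_⟩
    rw [map_add]
    exact (norm_add_le _ _).trans (add_le_add (h₁' p hp) (h₂' p hp))
  | mul_X P o hP =>
    obtain ⟨C₁, h₁, h₁'⟩ := hP
    refine ⟨C₁ * (|Bd| + 1), by positivity, fun p hp => ?_⟩
    rw [map_mul, norm_mul, aeval_X]
    have h2 : ‖p o‖ ≤ |Bd| + 1 := (hp o).trans ((le_abs_self _).trans (by linarith))
    exact mul_le_mul (h₁' p hp) h2 (norm_nonneg _) h₁.le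

section

variable {ι A : Type} [Fintype ι] [DecidableEq ι] (a₀ : A → ℕ) (a₁ : A → ι → ℕ)

/-- the product of the quantities which have to be away from `0` -/
noncomputable def rho (A : Type) (f : ι → ι → Bool) : MvPolynomial ((ι ⊕ ι) ⊕ A) ℂ :=
  (∏ i, X (.inl (.inl i)) * X (.inl (.inr i)) * (1 - X (.inl (.inr i)))) *
    ∏ i, ∏ j, if i = j then 1 else if f i j then X (.inl (.inl i)) - X (.inl (.inl j)) else
      X (.inl (.inr i)) - X (.inl (.inr j))

variable [Fintype A]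

theorem rho_zero (hinj : Function.Injective fun a => (a₀ a, a₁ a)) (f : ι → ι → Bool)
    (p : (ι ⊕ ι) ⊕ A → ℂ) (hG : ∀ j, aeval p (GG a₀ a₁ j) = 0) (a : A) :
    aeval p (rho A f * X (.inr a)) = 0 := by
  by_cases h : aeval p (rho A f) = 0
  · rw [map_mul, h, zero_mul]
  · rw [map_mul, aeval_X]
    unfold rho at h
    rw [map_mul] at h
    have h1 := left_ne_zero_of_mul h
    have h2 := right_ne_zero_of_mul h
    rw [map_prod, Finset.prod_ne_zero_iff] at h1 h2
    have h1' : ∀ i, p (.inl (.inl i)) ≠ 0 ∧ p (.inl (.inr i)) ≠ 0 ∧ 1 - p (.inl (.inr i)) ≠ 0 := by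
      intro i
      have h3 := h1 i (Finset.mem_univ i)
      rw [map_mul, map_mul, map_sub, map_one, aeval_X, aeval_X] at h3
      exact ⟨left_ne_zero_of_mul (left_ne_zero_of_mul h3), right_ne_zero_of_mul (left_ne_zero_of_mul h3),
        right_ne_zero_of_mul h3⟩
    rw [jet_zero a₀ a₁ hinj p (fun i => (h1' i).1) (fun i => (h1' i).2.1)
      (fun i h3 => (h1' i).2.2 (by rw [h3, sub_self])) ?_ hG a, mul_zero]
    intro i j hb hy
    by_contra hij
    have h3 := h2 i (Finset.mem_univ i)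
    rw [map_prod, Finset.prod_ne_zero_iff] at h3
    have h4 := h3 j (Finset.mem_univ j)
    rw [if_neg hij] at h4
    split_ifs at h4
    · rw [map_sub, aeval_X, aeval_X] at h4
      exact h4 (sub_eq_zero.2 hb)
    · rw [map_sub, aeval_X, aeval_X] at h4
      exact h4 (sub_eq_zero.2 hy)

theorem null (hinj : Function.Injective fun a => (a₀ a, a₁ a)) (Bd : ℝ) :
    ∃ K J : ℕ, ∃ C : ℝ, 0 < C ∧ ∀ (f : ι → ι → Bool) (p : (ι ⊕ ι) ⊕ A → ℂ), (∀ v, ‖p v‖ ≤ Bd) →
      ∀ a : A, (‖aeval p (rho A f)‖ * ‖p (.inr a)‖) ^ K ≤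
        C * ∑ j ∈ Finset.range J, ‖aeval p (GG a₀ a₁ j)‖ := by
  classical
  have h1 : ∀ x : (ι → ι → Bool) × A, ∃ K : ℕ, (rho A x.1 * X (.inr x.2)) ^ K ∈
      Ideal.span (Set.range (GG a₀ a₁)) := by
    intro x
    have h2 : rho A x.1 * X (.inr x.2) ∈ vanishingIdeal ℂ (zeroLocus ℂ (Ideal.span (Set.range (GG a₀ a₁)))) := by
      rw [mem_vanishingIdeal_iff]
      intro p hp
      exact rho_zero a₀ a₁ hinj x.1 p (fun j => hp _ (Ideal.subset_span ⟨j, rfl⟩)) x.2
    rw [vanishingIdeal_zeroLocus_eq_radical] at h2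
    exact h2
  choose K₀ hK₀ using h1
  set K := ∑ x, K₀ x with hK
  have h2 : ∀ x : (ι → ι → Bool) × A, ∃ (J : ℕ) (C : ℝ), 0 < C ∧ ∀ p : (ι ⊕ ι) ⊕ A → ℂ,
      (∀ v, ‖p v‖ ≤ Bd) → (‖aeval p (rho A x.1)‖ * ‖p (.inr x.2)‖) ^ K ≤
        C * ∑ j ∈ Finset.range J, ‖aeval p (GG a₀ a₁ j)‖ := by
    intro x
    have h3 : (rho A x.1 * X (.inr x.2)) ^ K ∈ Ideal.span (Set.range (GG a₀ a₁)) := by
      have h4 : K₀ x ≤ K := Finset.single_le_sum (f := K₀) (fun _ _ => Nat.zero_le _) (Finset.mem_univ x)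
      rw [← Nat.add_sub_cancel' h4, pow_add]
      exact Ideal.mul_mem_right _ _ (hK₀ x)
    rw [Ideal.span, Finsupp.mem_span_range_iff_exists_finsupp] at h3
    obtain ⟨c, hc⟩ := h3
    choose B hB hB' using fun j => poly_bdd (c j) Bd
    refine ⟨c.support.sup id + 1, 1 + ∑ j ∈ c.support, B j, ?_, ?_⟩
    · have : 0 ≤ ∑ j ∈ c.support, B j := Finset.sum_nonneg fun j _ => (hB j).le
      linarith
    · intro p hp
      have h4 : (‖aeval p (rho A x.1)‖ * ‖p (.inr x.2)‖) ^ K = ‖aeval p ((rho A x.1 * X (.inr x.2)) ^ K)‖ := by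
        rw [map_pow, norm_pow, map_mul, norm_mul, aeval_X]
      rw [h4, ← hc, Finsupp.sum, map_sum]
      refine (norm_sum_le _ _).trans ?_
      rw [Finset.mul_sum]
      have h5 : ∀ j ∈ c.support, ‖aeval p (c j • GG a₀ a₁ j)‖ ≤
          (1 + ∑ j ∈ c.support, B j) * ‖aeval p (GG a₀ a₁ j)‖ := by
        intro j hj
        rw [smul_eq_mul, map_mul, norm_mul]
        refine mul_le_mul_of_nonneg_right ?_ (norm_nonneg _)
        refine (hB' j p hp).trans ?_
        have := Finset.single_le_sum (f := B) (fun j _ => (hB j).le) hj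
        linarith
      refine (Finset.sum_le_sum h5).trans ?_
      refine Finset.sum_le_sum_of_subset_of_nonneg ?_ ?_
      · intro j hj
        rw [Finset.mem_range]
        have : j ≤ c.support.sup id := Finset.le_sup (f := id) hj
        omega
      · intro j _ _
        have : 0 ≤ ∑ j ∈ c.support, B j := Finset.sum_nonneg fun j _ => (hB j).le
        positivity
  choose J C hC hJC using h2
  refine ⟨K, ∑ x, J x, 1 + ∑ x, C x, ?_, ?_⟩
  · have : 0 ≤ ∑ x, C x := Finset.sum_nonneg fun x _ => (hC x).le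
    linarith
  · intro f p hp a
    refine (hJC (f, a) p hp).trans ?_
    have h3 : C (f, a) ≤ 1 + ∑ x, C x := by
      have := Finset.single_le_sum (f := C) (fun x _ => (hC x).le) (Finset.mem_univ (f, a))
      linarith
    have h4 : J (f, a) ≤ ∑ x, J x :=
      Finset.single_le_sum (f := J) (fun _ _ => Nat.zero_le _) (Finset.mem_univ (f, a))
    refine mul_le_mul h3 ?_ (Finset.sum_nonneg fun _ _ => norm_nonneg _) ?_
    · refine Finset.sum_le_sum_of_subset_of_nonneg ?_ fun _ _ _ => norm_nonneg _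
      intro j hj
      rw [Finset.mem_range] at hj ⊢
      omega
    · have : 0 ≤ ∑ x, C x := Finset.sum_nonneg fun x _ => (hC x).le
      linarith

end

end Pool.Agent.Lib.MP_ec260d_ntU
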