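import Mathlib
import Pool.Agent.Lib.MP_ec260d_ntH.Cov

/-!
# Sublevel sets of functions one of whose derivatives is large
-/

open Set Filter Topology

namespace Pool.Agent.Lib.MP_ec260d_ntU

open Pool.Agent.Lib.MP_ec260d_ntH

theorem Cov.iUnion {m : ℕ} {l : ℝ} (E : ℕ → Set ℝ) : ∀ n : ℕ, (∀ i < n, Cov m l (E i)) →
    Cov (n * m) l {u | ∃ i < n, u ∈ E i} := by
  intro n
  induction n with
  | zero =>
    intro _
    refine (Cov.empty l).mono (by omega) le_rfl ?_
    rintro u ⟨i, hi, _⟩
    omega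
  | succ n ih =>
    intro h
    have h1 := (ih (fun i hi => h i (by omega))).union (h n (by omega))
    refine h1.mono (by rw [Nat.succ_mul]) le_rfl ?_
    rintro u ⟨i, hi, hu⟩
    rcases Nat.lt_or_ge i n with h2 | h2
    · exact Or.inl ⟨i, h2, hu⟩
    · have : i = n := by omega
      subst this
      exact Or.inr hu

theorem sub_real : ∀ (j : ℕ) (f : ℕ → ℝ → ℝ) (p q l η : ℝ), 0 < l → 0 < η →
    (∀ i < j, ∀ u ∈ Icc p q, HasDerivAt (f i) (f (i + 1) u) u) →
    (∀ u ∈ Icc p q, η * (2 / l) ^ j < |f j u|) →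
    Cov (2 ^ j - 1) l {u | u ∈ Icc p q ∧ |f 0 u| ≤ η} := by
  intro j
  induction j with
  | zero =>
    intro f p q l η _ _ _ hlow
    refine (Cov.empty l).mono (by simp) le_rfl ?_
    rintro u ⟨hu, hle⟩
    have := hlow u hu
    rw [pow_zero, mul_one] at this
    exact absurd hle (not_le.2 this)
  | succ j ih =>
    intro f p q l η hl hη hder hlow
    have h1 := ih (fun i => f (i + 1)) p q l (η * (2 / l)) hl (by positivity)
      (fun i hi u hu => hder (i + 1) (by omega) u hu) (fun u hu => by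
        have := hlow u hu
        rw [pow_succ] at this
        calc η * (2 / l) * (2 / l) ^ j = η * ((2 / l) ^ j * (2 / l)) := by ring
          _ < _ := this)
    have h2 := cov_step h1 (E := {u | u ∈ Icc p q ∧ |f 0 u| ≤ η}) (l' := l)
      ⟨p, fun u hu => hu.1.1⟩ hl.le (by
        intro u hu v hv huv hno
        have hsub : Icc u v ⊆ Icc p q := Icc_subset_Icc hu.1.1 hv.1.2
        obtain ⟨t, ht, htd⟩ := exists_hasDerivAt_eq_slope (f 0) (f 1) huv
          (fun x hx => (hder 0 (by omega) x (hsub hx)).continuousAt.continuousWithinAt)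
          (fun x hx => hder 0 (by omega) x (hsub (Ioo_subset_Icc_self hx)))
        have ht' := Ioo_subset_Icc_self ht
        have h3 : η * (2 / l) < |f 1 t| := by
          by_contra hcon
          exact hno t ht' ⟨hsub ht', not_lt.1 hcon⟩
        have hvu : 0 < v - u := by linarith
        rw [htd, abs_div, abs_of_pos hvu, lt_div_iff₀ hvu] at h3
        have h4 : |f 0 v - f 0 u| ≤ 2 * η := by
          calc |f 0 v - f 0 u| ≤ |f 0 v| + |f 0 u| := abs_sub _ _
            _ ≤ 2 * η := by linarith [hu.2, hv.2]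
        have h5 : η * (2 / l) * (v - u) < 2 * η := lt_of_lt_of_le h3 h4
        have h6 : η * (2 / l) * (v - u) = (2 * η) * ((v - u) / l) := by ring
        rw [h6] at h5
        have h7 : (v - u) / l < 1 := by
          by_contra hcon
          push Not at hcon
          nlinarith
        rw [div_lt_one hl] at h7
        exact h7.le)
    have hp : 1 ≤ 2 ^ j := Nat.one_le_two_pow
    refine h2.mono (by rw [pow_succ]; omega) (by rw [max_self]) le_rfl

theorem sub_cplx (J : ℕ) (F : ℕ → ℝ → ℂ) (p q l η Λ δ : ℝ) (hl : 0 < l) (hl2 : l ≤ 2) (hη : 0 < η)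
    (hder : ∀ i, ∀ u, HasDerivAt (F i) (F (i + 1) u) u) (hpq : p ≤ q)
    (hΛ : ∀ i ≤ J, ∀ u ∈ Icc p q, ‖F i u‖ ≤ Λ) (hlen : Λ * (q - p) ≤ δ / 4) {j : ℕ} (hj : j < J)
    (hδ : δ ≤ ‖F j p‖) (hη2 : η * (2 / l) ^ J < δ / 4) :
    Cov (2 ^ J) l {u | u ∈ Icc p q ∧ ‖F 0 u‖ ≤ η} := by
  have hclose : ∀ u ∈ Icc p q, ‖F j u - F j p‖ ≤ δ / 4 := by
    intro u hu
    have h1 := norm_image_sub_le_of_norm_deriv_le_segment' (f := F j) (f' := fun x => F (j + 1) x)
      (a := p) (b := q) (C := Λ) (fun x _ => (hder j x).hasDerivWithinAt)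
      (fun x hx => hΛ (j + 1) (by omega) x ⟨hx.1, hx.2.le⟩) u hu
    refine h1.trans (le_trans ?_ hlen)
    have h2 : 0 ≤ Λ := (norm_nonneg _).trans (hΛ 0 (by omega) p ⟨le_rfl, hpq⟩)
    have := hu.2
    gcongr
  have hl1 : 1 ≤ 2 / l := by rw [le_div_iff₀ hl]; linarith
  have hηj : η * (2 / l) ^ j < δ / 4 := by
    refine lt_of_le_of_lt ?_ hη2
    have := pow_le_pow_right₀ hl1 hj.le
    gcongr
  have hm : 2 ^ j - 1 ≤ 2 ^ J := (Nat.sub_le _ _).trans (Nat.pow_le_pow_right (by norm_num) hj.le)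
  have hsplit := Complex.norm_le_abs_re_add_abs_im (F j p)
  rcases le_total |(F j p).im| |(F j p).re| with h1 | h1
  · have h2 : δ / 2 ≤ |(F j p).re| := by linarith
    refine (sub_real j (fun i u => (F i u).re) p q l η hl hη ?_ ?_).mono hm le_rfl ?_
    · intro i _ u _
      exact (Complex.reCLM.hasFDerivAt (x := F i u)).comp_hasDerivAt u (hder i u)
    · intro u hu
      refine lt_of_lt_of_le hηj ?_
      have h3 := hclose u hu
      have h4 : |(F j p).re| - |(F j u).re| ≤ |(F j u - F j p).re| := by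
        rw [Complex.sub_re, abs_sub_comm]
        exact abs_sub_abs_le_abs_sub _ _
      have h5 := (Complex.abs_re_le_norm (F j u - F j p)).trans h3
      show δ / 4 ≤ |(F j u).re|
      linarith
    · rintro u ⟨hu, hle⟩
      exact ⟨hu, (Complex.abs_re_le_norm _).trans hle⟩
  · have h2 : δ / 2 ≤ |(F j p).im| := by linarith
    refine (sub_real j (fun i u => (F i u).im) p q l η hl hη ?_ ?_).mono hm le_rfl ?_
    · intro i _ u _
      exact (Complex.imCLM.hasFDerivAt (x := F i u)).comp_hasDerivAt u (hder i u)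
    · intro u hu
      refine lt_of_lt_of_le hηj ?_
      have h3 := hclose u hu
      have h4 : |(F j p).im| - |(F j u).im| ≤ |(F j u - F j p).im| := by
        rw [Complex.sub_im, abs_sub_comm]
        exact abs_sub_abs_le_abs_sub _ _
      have h5 := (Complex.abs_im_le_norm (F j u - F j p)).trans h3
      show δ / 4 ≤ |(F j u).im|
      linarith
    · rintro u ⟨hu, hle⟩
      exact ⟨hu, (Complex.abs_im_le_norm _).trans hle⟩

end Pool.Agent.Lib.MP_ec260d_ntU
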