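import Mathlib
import Pool.Agent.Lib.MP_ec260d_ntH.Mono
import Pool.Agent.Lib.MP_ec260d_ntU.Null

/-!
# The monomials in `x` and the `S i x` as a solution of the algebraic differential system
-/

open Set Filter Topology

namespace Pool.Agent.Lib.MP_ec260d_ntU

open Pool.Agent.Lib.MP_ec260d_nt Pool.Agent.Lib.MP_ec260d_ntH

variable {k : ℕ}

/-- exponent of `x` -/
def e₀ {D : ℕ} (α : Ix k D) : ℕ := (α none : ℕ)

/-- exponents of the other variables -/
def e₁ {D : ℕ} (α : Ix k D) (i : Fin k) : ℕ := (α (some i) : ℕ)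

theorem e_inj {D : ℕ} : Function.Injective fun α : Ix k D => (e₀ α, e₁ α) := by
  intro α β h
  have h1 : e₀ α = e₀ β := (Prod.ext_iff.1 h).1
  have h2 : e₁ α = e₁ β := (Prod.ext_iff.1 h).2
  funext o
  cases o with
  | none => exact Fin.ext h1
  | some i => exact Fin.ext (congrFun h2 i)

/-- `y i = 1 / (1 + w i)` -/
noncomputable def yy (a b : Fin k → ℝ) (D₀ : ℝ) (i : Fin k) (u : ℝ) : ℝ :=
  (1 + gE (Real.log (a i / D₀) + b i * u))⁻¹

/-- the point of the system -/
noncomputable def pt (a b : Fin k → ℝ) (B D₀ : ℝ) {D : ℕ} (cc : Ix k D → ℂ) (M u : ℝ) :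
    (Fin k ⊕ Fin k) ⊕ Ix k D → ℂ
  | .inl (.inl i) => ((b i : ℝ) : ℂ)
  | .inl (.inr i) => ((yy a b D₀ i u : ℝ) : ℂ)
  | .inr α => cc α * ((hh a b B D₀ α u / M : ℝ) : ℂ)

theorem gA_deriv (A b u : ℝ) : HasDerivAt (fun u => gE (A + b * u))
    (gE (A + b * u) / (1 + gE (A + b * u)) * b) u := by
  have h3 : HasDerivAt (fun u => A + b * u) b u := by
    simpa using ((hasDerivAt_id u).const_mul b).const_add A
  exact HasDerivAt.comp (h₂ := gE) (h := fun u => A + b * u) u (gE_hasDeriv (A + b * u)) h3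

theorem yy_deriv (a b : Fin k → ℝ) (D₀ : ℝ) (i : Fin k) (u : ℝ) : HasDerivAt (yy a b D₀ i)
    (-(b i * yy a b D₀ i u ^ 2 * (1 - yy a b D₀ i u))) u := by
  have h1 := gA_deriv (Real.log (a i / D₀)) (b i) u
  have h2 : 0 < 1 + gE (Real.log (a i / D₀) + b i * u) := by
    have := gE_pos (Real.log (a i / D₀) + b i * u); linarith
  have h3 := (h1.const_add 1).fun_inv h2.ne'
  refine h3.congr_deriv ?_
  unfold yy
  generalize gE (Real.log (a i / D₀) + b i * u) = W at h2 ⊢
  field_simp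
  ring

theorem VV_deriv {a b : Fin k → ℝ} {B D₀ : ℝ} (ha : ∀ i, 0 < a i) (hD : 0 < D₀) (u : ℝ)
    (o : Option (Fin k)) : HasDerivAt (fun u => VV a b B D₀ (Real.exp u) o)
      (o.elim 1 (fun i => b i * (1 - yy a b D₀ i u)) * VV a b B D₀ (Real.exp u) o) u := by
  cases o with
  | none =>
    have : (fun u => VV a b B D₀ (Real.exp u) none) = Real.exp := rfl
    rw [this]
    refine (Real.hasDerivAt_exp u).congr_deriv ?_
    show Real.exp u = 1 * Real.exp u
    rw [one_mul]
  | some i =>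
    have h0 : (fun u => VV a b B D₀ (Real.exp u) (some i)) = fun u =>
        Real.exp (b i * u) * ((a i / B) / gE (Real.log (a i / D₀) + b i * u)) :=
      funext fun u => VV_exp ha hD u i
    rw [h0, VV_exp ha hD u i]
    have h1 := gA_deriv (Real.log (a i / D₀)) (b i) u
    have h2 : 0 < gE (Real.log (a i / D₀) + b i * u) := gE_pos _
    have h3 : HasDerivAt (fun u => Real.exp (b i * u)) (Real.exp (b i * u) * b i) u := by
      have h4 : HasDerivAt (fun u => b i * u) (b i) u := by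
        simpa using (hasDerivAt_id u).const_mul (b i)
      exact h4.exp
    have h5 := h3.fun_mul ((hasDerivAt_const u (a i / B)).fun_div h1 h2.ne')
    refine h5.congr_deriv ?_
    simp only [Option.elim]
    unfold yy
    generalize gE (Real.log (a i / D₀) + b i * u) = W at h2 ⊢
    generalize Real.exp (b i * u) = Z
    have h6 : 0 < 1 + W := by linarith
    field_simp
    ring

theorem prod_deriv {κ : Type} (g : κ → ℝ → ℝ) (r : κ → ℝ) (u : ℝ)
    (h : ∀ o, HasDerivAt (g o) (r o * g o u) u) (n : κ → ℕ) (S : Finset κ) :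
    HasDerivAt (fun u => ∏ o ∈ S, g o u ^ n o) ((∑ o ∈ S, (n o : ℝ) * r o) * ∏ o ∈ S, g o u ^ n o) u := by
  classical
  have hp : ∀ o, HasDerivAt (fun u => g o u ^ n o) ((n o : ℝ) * r o * g o u ^ n o) u := by
    intro o
    refine ((h o).fun_pow (n o)).congr_deriv ?_
    cases hn : n o with
    | zero => simp
    | succ m =>
      simp only [Nat.add_sub_cancel]
      push_cast
      ring
  induction S using Finset.induction_on with
  | empty =>
    simp only [Finset.prod_empty, Finset.sum_empty, zero_mul]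
    exact hasDerivAt_const u 1
  | insert o S ho ih =>
    have h1 : (fun u => ∏ o ∈ insert o S, g o u ^ n o) = fun u => g o u ^ n o * ∏ o ∈ S, g o u ^ n o :=
      funext fun u => Finset.prod_insert ho
    rw [h1, Finset.prod_insert ho, Finset.sum_insert ho]
    refine ((hp o).fun_mul ih).congr_deriv ?_
    ring

/-- the logarithmic derivative of `hh α` -/
noncomputable def fr (a b : Fin k → ℝ) (D₀ : ℝ) {D : ℕ} (α : Ix k D) (u : ℝ) : ℝ :=
  (e₀ α : ℝ) + ∑ i, (e₁ α i : ℝ) * (b i * (1 - yy a b D₀ i u))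

theorem hh_deriv {a b : Fin k → ℝ} {B D₀ : ℝ} (ha : ∀ i, 0 < a i) (hD : 0 < D₀) {D : ℕ}
    (α : Ix k D) (u : ℝ) : HasDerivAt (hh a b B D₀ α) (fr a b D₀ α u * hh a b B D₀ α u) u := by
  have h1 := prod_deriv (fun (o : Option (Fin k)) u => VV a b B D₀ (Real.exp u) o)
    (fun o => o.elim 1 (fun i => b i * (1 - yy a b D₀ i u))) u (fun o => VV_deriv ha hD u o)
    (fun o => (α o : ℕ)) Finset.univ
  have h2 : (fun u => ∏ o, VV a b B D₀ (Real.exp u) o ^ (α o : ℕ)) = hh a b B D₀ α := rfl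
  rw [h2] at h1
  refine h1.congr_deriv ?_
  unfold fr hh
  rw [Fintype.sum_option]
  simp only [Option.elim]
  unfold e₀ e₁
  ring

theorem pt_deriv {a b : Fin k → ℝ} {B D₀ : ℝ} (ha : ∀ i, 0 < a i) (hD : 0 < D₀) {D : ℕ}
    (cc : Ix k D → ℂ) (M : ℝ) (Q : MvPolynomial ((Fin k ⊕ Fin k) ⊕ Ix k D) ℂ) (u : ℝ) :
    HasDerivAt (fun u => MvPolynomial.aeval (pt a b B D₀ cc M u) Q)
      (MvPolynomial.aeval (pt a b B D₀ cc M u) (dd e₀ e₁ Q)) u := by
  have hX : ∀ v, HasDerivAt (fun u => pt a b B D₀ cc M u v)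
      (MvPolynomial.aeval (pt a b B D₀ cc M u) (dd e₀ e₁ (MvPolynomial.X v))) u := by
    rintro ((i | i) | α)
    · rw [dd_b, map_zero]
      exact hasDerivAt_const u _
    · rw [dd_y]
      have h1 : (fun u => pt a b B D₀ cc M u (.inl (.inr i))) = fun u => ((yy a b D₀ i u : ℝ) : ℂ) := rfl
      rw [h1]
      refine (yy_deriv a b D₀ i u).ofReal_comp.congr_deriv ?_
      simp only [map_neg, map_mul, map_pow, map_sub, map_one, MvPolynomial.aeval_X]
      show _ = -(((b i : ℝ) : ℂ) * ((yy a b D₀ i u : ℝ) : ℂ) ^ 2 * (1 - ((yy a b D₀ i u : ℝ) : ℂ)))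
      push_cast
      ring
    · rw [dd_c]
      have h1 : (fun u => pt a b B D₀ cc M u (.inr α)) =
          fun u => cc α * ((hh a b B D₀ α u / M : ℝ) : ℂ) := rfl
      rw [h1]
      refine ((((hh_deriv ha hD α u).div_const M).ofReal_comp).const_mul (cc α)).congr_deriv ?_
      have h2 : MvPolynomial.aeval (pt a b B D₀ cc M u) (ph e₀ e₁ α) = ((fr a b D₀ α u : ℝ) : ℂ) := by
        unfold ph fr
        simp only [map_add, map_sum, map_mul, map_natCast, MvPolynomial.aeval_X, map_sub, map_one]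
        push_cast
        rfl
      rw [map_mul, h2, MvPolynomial.aeval_X]
      show _ = ((fr a b D₀ α u : ℝ) : ℂ) * (cc α * ((hh a b B D₀ α u / M : ℝ) : ℂ))
      push_cast
      ring
  induction Q using MvPolynomial.induction_on with
  | C c =>
    have h1 : dd (ι := Fin k) (A := Ix k D) e₀ e₁ (MvPolynomial.C c) = 0 := by
      rw [← MvPolynomial.algebraMap_eq]; exact (dd e₀ e₁).map_algebraMap c
    rw [h1, map_zero]
    have h2 : (fun u => MvPolynomial.aeval (pt a b B D₀ cc M u) (MvPolynomial.C c)) = fun _ => c := by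
      funext u
      rw [MvPolynomial.algHom_C]
      rfl
    rw [h2]
    exact hasDerivAt_const u c
  | add P Q hP hQ =>
    simp only [map_add]
    exact hP.add hQ
  | mul_X P v hP =>
    simp only [map_mul, MvPolynomial.aeval_X, Derivation.leibniz, smul_eq_mul, map_add]
    refine (hP.fun_mul (hX v)).congr_deriv ?_
    ring

end Pool.Agent.Lib.MP_ec260d_ntU
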