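import Mathlib
import Pool.Agent.Lib.MP_ec260d_ntU.CovU

/-!
# Lower bound for the product `rr` from the separation of the pairs
-/

open Set Filter Topology

namespace Pool.Agent.Lib.MP_ec260d_ntU

open Pool.Agent.Lib.MP_ec260d_nt Pool.Agent.Lib.MP_ec260d_ntH

theorem log_sep {x y M : ℝ} (hx : 0 < x) (hy : 0 < y) (hxM : x ≤ M) (hyM : y ≤ M) :
    |x - y| / M ≤ |Real.log x - Real.log y| := by
  have key : ∀ x y : ℝ, 0 < x → 0 < y → x ≤ M → y ≤ M → y ≤ x → |x - y| / M ≤ |Real.log x - Real.log y| := by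
    intro x y hx hy hxM hyM hyx
    have hM : 0 < M := hx.trans_le hxM
    have h1 := Real.one_sub_inv_le_log_of_pos (div_pos hx hy)
    rw [inv_div, Real.log_div hx.ne' hy.ne'] at h1
    have h2 : (x - y) / M ≤ 1 - y / x := by
      rw [div_le_iff₀ hM]
      have h3 : (1 - y / x) * M = (x - y) * (M / x) := by field_simp
      rw [h3]
      have h4 : 1 ≤ M / x := by rw [le_div_iff₀ hx]; linarith
      nlinarith
    rw [abs_of_nonneg (by linarith : 0 ≤ x - y)]
    exact (h2.trans h1).trans (le_abs_self _)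
  rcases le_total y x with h | h
  · exact key x y hx hy hxM hyM h
  · rw [abs_sub_comm, abs_sub_comm (Real.log x)]
    exact key y x hy hx hyM hxM h

theorem log_lip {x y : ℝ} (hx : 1 ≤ x) (hy : 1 ≤ y) : |Real.log x - Real.log y| ≤ |x - y| := by
  have key : ∀ x y : ℝ, 1 ≤ x → 1 ≤ y → y ≤ x → |Real.log x - Real.log y| ≤ |x - y| := by
    intro x y hx hy hyx
    have hx0 : 0 < x := by linarith
    have hy0 : 0 < y := by linarith
    have h1 := Real.log_le_sub_one_of_pos (div_pos hx0 hy0)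
    rw [Real.log_div hx0.ne' hy0.ne'] at h1
    have h2 : Real.log y ≤ Real.log x := Real.log_le_log hy0 hyx
    rw [abs_of_nonneg (by linarith), abs_of_nonneg (by linarith)]
    refine h1.trans ?_
    have h3 : x / y - 1 = (x - y) / y := by field_simp
    rw [h3, div_le_iff₀ hy0]
    nlinarith
  rcases le_total y x with h | h
  · exact key x y hx hy h
  · rw [abs_sub_comm, abs_sub_comm x]
    exact key y x hy hx h

/-- values of `gE` are separated when the arguments are -/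
theorem yy_sep {s t T : ℝ} (hs : 1 ≤ s) (ht : 1 ≤ t) (hsT : s ≤ T) (htT : t ≤ T) :
    |s - t| / (2 * (1 + T) ^ 2) ≤ |(1 + gE s)⁻¹ - (1 + gE t)⁻¹| := by
  obtain ⟨hs1, hs2, _⟩ := gE_bounds hs
  obtain ⟨ht1, ht2, _⟩ := gE_bounds ht
  have h1 := gE_add_log s
  have h2 := gE_add_log t
  set w := gE s with hw
  set v := gE t with hv
  have h3 := log_lip hs1 ht1
  have h4 : |s - t| ≤ 2 * |w - v| := by
    calc |s - t| = |(w - v) + (Real.log w - Real.log v)| := by
          congr 1; linarith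
      _ ≤ |w - v| + |Real.log w - Real.log v| := abs_add_le _ _
      _ ≤ _ := by linarith
  have h5 : (1 + w)⁻¹ - (1 + v)⁻¹ = (v - w) / ((1 + w) * (1 + v)) := by
    have : (1 : ℝ) + w ≠ 0 := by linarith
    have : (1 : ℝ) + v ≠ 0 := by linarith
    field_simp
    ring
  rw [h5, abs_div, abs_sub_comm v w]
  have h6 : 0 < (1 + w) * (1 + v) := by nlinarith
  rw [abs_of_pos h6]
  have hT : 0 < 1 + T := by linarith
  have h7 : (1 + w) * (1 + v) ≤ (1 + T) ^ 2 := by
    rw [pow_two]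
    exact mul_le_mul (by linarith) (by linarith) (by linarith) hT.le
  calc |s - t| / (2 * (1 + T) ^ 2) ≤ (2 * |w - v|) / (2 * (1 + T) ^ 2) := by gcongr
    _ = |w - v| / (1 + T) ^ 2 := by field_simp
    _ ≤ |w - v| / ((1 + w) * (1 + v)) := div_le_div_of_nonneg_left (abs_nonneg _) h6 h7

theorem sep (k : ℕ) (β D₀ c : ℝ) (hβ : 1 ≤ β) (hc : 0 < c) (hD : 0 < D₀) (hcβ : c ≤ 1 / (8 * β)) :
    ∀ᶠ N : ℝ in atTop, ∀ a b : Fin k → ℝ, (∀ i, N ^ (-c) ≤ a i ∧ a i ≤ N ^ c) →
      (∀ i, β⁻¹ ≤ b i ∧ b i ≤ β) → (∀ i j, i ≠ j → N ^ (-c) ≤ |a i - a j| + |b i - b j|) →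
      ∃ f : Fin k → Fin k → Bool, ∀ u, Real.log N / 3 ≤ u → u ≤ Real.log N + 1 →
        (N ^ (-(3 * c))) ^ (k + k * k) ≤ |rr a b D₀ f u| := by
  classical
  have hβ0 : 0 < β := by linarith
  have hc8 : c ≤ 1 / 8 := by
    refine hcβ.trans ?_
    rw [div_le_div_iff₀ (by positivity) (by norm_num)]
    linarith
  set C : ℝ := 8 * β * (2 * β + 2) ^ 2 + 10 with hC
  have hC0 : 0 < C := by positivity
  have hlim : ∀ᶠ N : ℝ in atTop, C * (Real.log N) ^ 2 ≤ N ^ c := by
    have h1 := (isLittleO_log_rpow_rpow_atTop ((2 : ℕ) : ℝ) hc).def (c := 1 / C) (by positivity)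
    filter_upwards [h1, eventually_ge_atTop (1 : ℝ)] with N hN hN1
    have hl : 0 ≤ Real.log N := Real.log_nonneg hN1
    rw [Real.rpow_natCast, Real.norm_of_nonneg (pow_nonneg hl _),
      Real.norm_of_nonneg (Real.rpow_nonneg (by linarith) _), one_div_mul_eq_div,
      le_div_iff₀ hC0] at hN
    linarith
  have hgap : 0 < β⁻¹ / 3 - c := by
    have h1 : c ≤ β⁻¹ / 8 := by
      rw [one_div, mul_inv] at hcβ
      linarith
    have h2 : 0 < β⁻¹ := inv_pos.2 hβ0
    linarith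
  have hL1 : ∀ᶠ N : ℝ in atTop, (1 + Real.log D₀) / (β⁻¹ / 3 - c) ≤ Real.log N :=
    Real.tendsto_log_atTop.eventually_ge_atTop _
  have hL2 : ∀ᶠ N : ℝ in atTop, β - Real.log D₀ ≤ Real.log N :=
    Real.tendsto_log_atTop.eventually_ge_atTop _
  have hL3 : ∀ᶠ N : ℝ in atTop, 1 ≤ Real.log N := Real.tendsto_log_atTop.eventually_ge_atTop _
  filter_upwards [hlim, hL1, hL2, hL3, eventually_ge_atTop (1 : ℝ)] with N hN hN1 hN2 hN3 hNge a b ha hb hab
  have hN0 : 0 < N := by linarith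
  set L := Real.log N with hL
  have hp : ∀ e : ℝ, 0 < N ^ e := fun e => Real.rpow_pos_of_pos hN0 e
  set T : ℝ := (2 * β + 1) * L with hT
  have hT0 : 0 < T := by positivity
  have hQ : 8 * β * (1 + T) ^ 2 + 4 * (L + 1) + 2 ≤ N ^ c := by
    refine le_trans ?_ hN
    have h1 : 1 + T ≤ (2 * β + 2) * L := by rw [hT]; linarith
    have h2 : (1 + T) ^ 2 ≤ ((2 * β + 2) * L) ^ 2 := pow_le_pow_left₀ (by linarith) h1 2
    have h3 : L ≤ L ^ 2 := by nlinarith
    have h4 : (1 : ℝ) ≤ L ^ 2 := by nlinarith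
    have h5 : 8 * β * (1 + T) ^ 2 ≤ 8 * β * ((2 * β + 2) * L) ^ 2 := by gcongr
    rw [hC]
    nlinarith
  have hNc1 : 1 ≤ N ^ c := Real.one_le_rpow hNge hc.le
  have hsq0 : 0 ≤ (1 + T) ^ 2 := sq_nonneg _
  have hA3 : 8 * β * (1 + T) ^ 2 ≤ N ^ c := by linarith
  have hA0 : 0 ≤ 8 * β * (1 + T) ^ 2 := by positivity
  have hA1 : (2 : ℝ) ≤ N ^ c := by linarith
  have hA2 : L + 1 ≤ N ^ c / 4 := by linarith
  have hA4 : 8 * (1 + T) ^ 2 ≤ N ^ c := by
    refine le_trans ?_ hA3
    have : 8 * 1 * (1 + T) ^ 2 ≤ 8 * β * (1 + T) ^ 2 := by gcongr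
    linarith
  have hA5 : β * (1 + T) * 2 ≤ N ^ c := by
    refine le_trans ?_ hA3
    have h1 : 1 + T ≤ (1 + T) ^ 2 := by
      rw [pow_two]; exact le_mul_of_one_le_left (by linarith) (by linarith)
    calc β * (1 + T) * 2 = 2 * β * (1 + T) := by ring
      _ ≤ 8 * β * (1 + T) ^ 2 := by gcongr; norm_num
  have hrel : ∀ m : ℕ, N ^ (-((m + 1 : ℕ) * c)) * N ^ c = N ^ (-((m : ℕ) * c)) := by
    intro m
    rw [← Real.rpow_add hN0]
    congr 1
    push_cast
    ring
  have e32 : N ^ (-(3 * c)) * N ^ c = N ^ (-(2 * c)) := by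
    have := hrel 2; push_cast at this; norm_num at this; exact this
  have e21 : N ^ (-(2 * c)) * N ^ c = N ^ (-c) := by
    have := hrel 1; push_cast at this; norm_num at this; exact this
  have e10 : N ^ (-c) * N ^ c = 1 := by
    rw [← Real.rpow_add hN0, neg_add_cancel, Real.rpow_zero]
  set r : ℝ := N ^ (-(3 * c)) with hr
  have hr0 : 0 < r := hp _
  have hr1 : r ≤ 1 := by
    rw [hr]; exact Real.rpow_le_one_of_one_le_of_nonpos hNge (by linarith)
  -- the arguments
  set t : Fin k → ℝ → ℝ := fun i u => Real.log (a i / D₀) + b i * u with ht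
  have ha0 : ∀ i, 0 < a i := fun i => (hp _).trans_le (ha i).1
  have hloga : ∀ i, -(c * L) ≤ Real.log (a i) ∧ Real.log (a i) ≤ c * L := by
    intro i
    have h1 := Real.log_le_log (hp _) (ha i).1
    have h2 := Real.log_le_log (ha0 i) (ha i).2
    rw [Real.log_rpow hN0] at h1 h2
    constructor <;> linarith
  have hbi : ∀ i, 0 < b i := fun i => (inv_pos.2 hβ0).trans_le (hb i).1
  have ht1 : ∀ i u, L / 3 ≤ u → 1 ≤ t i u := by
    intro i u hu
    rw [ht]
    simp only
    rw [Real.log_div (ha0 i).ne' hD.ne']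
    have h1 : β⁻¹ * (L / 3) ≤ b i * u := by
      exact mul_le_mul (hb i).1 hu (by linarith) (hbi i).le
    have h2 : 1 + Real.log D₀ ≤ L * (β⁻¹ / 3 - c) := by
      rwa [div_le_iff₀ hgap] at hN1
    have h3 := (hloga i).1
    nlinarith
  have htT : ∀ i u, u ≤ L + 1 → t i u ≤ T := by
    intro i u hu
    rw [ht]
    simp only
    rw [Real.log_div (ha0 i).ne' hD.ne']
    have h1 : b i * u ≤ β * (L + 1) := by
      calc b i * u ≤ b i * (L + 1) := mul_le_mul_of_nonneg_left hu (hbi i).le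
        _ ≤ β * (L + 1) := mul_le_mul_of_nonneg_right (hb i).2 (by linarith)
    have h3 := (hloga i).2
    have h4 : c * L ≤ 1 / 8 * L := by gcongr
    rw [hT]
    nlinarith
  refine ⟨fun i j => decide (r ≤ |b i - b j|), fun u hu1 hu2 => ?_⟩
  have hyy : ∀ i, yy a b D₀ i u = (1 + gE (t i u))⁻¹ := fun i => rfl
  have hw : ∀ i, 1 ≤ gE (t i u) ∧ gE (t i u) ≤ T := by
    intro i
    obtain ⟨h1, h2, _⟩ := gE_bounds (ht1 i u hu1)
    exact ⟨h1, h2.trans (htT i u hu2)⟩
  -- single factors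
  have hsingle : ∀ i, r ≤ |b i * yy a b D₀ i u * (1 - yy a b D₀ i u)| := by
    intro i
    have h1 : (1 + T)⁻¹ ≤ yy a b D₀ i u := by
      rw [hyy]
      exact inv_anti₀ (by linarith [(hw i).1]) (by linarith [(hw i).2])
    have h2 : yy a b D₀ i u ≤ 2⁻¹ := by
      rw [hyy]
      exact inv_anti₀ (by norm_num) (by linarith [(hw i).1])
    have h3 : β⁻¹ * (1 + T)⁻¹ * 2⁻¹ ≤ b i * yy a b D₀ i u * (1 - yy a b D₀ i u) := by
      have h4 : 0 < β⁻¹ := inv_pos.2 hβ0
      have h5 : 0 < (1 + T)⁻¹ := inv_pos.2 (by linarith)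
      have h6 : β⁻¹ * (1 + T)⁻¹ ≤ b i * yy a b D₀ i u :=
        mul_le_mul (hb i).1 h1 h5.le (hbi i).le
      have h7 : (2 : ℝ)⁻¹ ≤ 1 - yy a b D₀ i u := by linarith
      exact mul_le_mul h6 h7 (by norm_num) (mul_nonneg (hbi i).le (yy_pos a b D₀ i u).le)
    have h4 : r ≤ β⁻¹ * (1 + T)⁻¹ * 2⁻¹ := by
      rw [← mul_inv, ← mul_inv, ← one_div, le_div_iff₀ (by positivity)]
      have h5 : β * (1 + T) * 2 ≤ N ^ c := hA5
      have h6 : N ^ c ≤ N ^ (3 * c) := Real.rpow_le_rpow_of_exponent_le hNge (by linarith)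
      have h7 : r * N ^ (3 * c) = 1 := by
        rw [hr, ← Real.rpow_add hN0, neg_add_cancel, Real.rpow_zero]
      calc r * (β * (1 + T) * 2) ≤ r * N ^ (3 * c) := by gcongr; exact h5.trans h6
        _ = 1 := h7
    exact (h4.trans h3).trans (le_abs_self _)
  have hpair : ∀ i j, r ≤ |if i = j then (1 : ℝ) else if decide (r ≤ |b i - b j|) = true then b i - b j else
      yy a b D₀ i u - yy a b D₀ j u| := by
    intro i j
    by_cases hij : i = j
    · rw [if_pos hij, abs_one]; exact hr1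
    rw [if_neg hij]
    by_cases hbij : r ≤ |b i - b j|
    · rw [if_pos (by simpa using hbij)]; exact hbij
    · rw [if_neg (by simpa using hbij)]
      push Not at hbij
      have h1 : r ≤ N ^ (-c) / 2 := by
        have h2 : r * N ^ c ≤ N ^ (-c) := by
          rw [e32]; exact Real.rpow_le_rpow_of_exponent_le hNge (by linarith)
        have h3 : r * 2 ≤ r * N ^ c := mul_le_mul_of_nonneg_left hA1 hr0.le
        linarith
      have h2 : N ^ (-c) / 2 ≤ |a i - a j| := by
        have := hab i j hij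
        linarith
      have h3 : N ^ (-(2 * c)) / 2 ≤ |Real.log (a i) - Real.log (a j)| := by
        refine le_trans ?_ (log_sep (ha0 i) (ha0 j) (ha i).2 (ha j).2)
        rw [le_div_iff₀ (hp _)]
        calc N ^ (-(2 * c)) / 2 * N ^ c = (N ^ (-(2 * c)) * N ^ c) / 2 := by ring
          _ = N ^ (-c) / 2 := by rw [e21]
          _ ≤ _ := h2
      have h4 : |(b i - b j) * u| ≤ N ^ (-(2 * c)) / 4 := by
        have hu0 : 0 ≤ u := by linarith
        rw [abs_mul, abs_of_nonneg hu0]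
        calc |b i - b j| * u ≤ r * (L + 1) := mul_le_mul hbij.le hu2 hu0 hr0.le
          _ ≤ r * (N ^ c / 4) := mul_le_mul_of_nonneg_left hA2 hr0.le
          _ = (r * N ^ c) / 4 := by ring
          _ = _ := by rw [e32]
      have h5 : N ^ (-(2 * c)) / 4 ≤ |t i u - t j u| := by
        have h6 : t i u - t j u = (Real.log (a i) - Real.log (a j)) + (b i - b j) * u := by
          rw [ht]
          simp only
          rw [Real.log_div (ha0 i).ne' hD.ne', Real.log_div (ha0 j).ne' hD.ne']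
          ring
        rw [h6]
        have h7 := abs_sub_abs_le_abs_sub (Real.log (a i) - Real.log (a j)) (-((b i - b j) * u))
        rw [abs_neg, sub_neg_eq_add] at h7
        linarith
      rw [hyy, hyy]
      refine le_trans ?_ (yy_sep (ht1 i u hu1) (ht1 j u hu1) (htT i u hu2) (htT j u hu2))
      rw [le_div_iff₀ (by positivity)]
      have h8' : r * (8 * (1 + T) ^ 2) ≤ r * N ^ c := mul_le_mul_of_nonneg_left hA4 hr0.le
      calc r * (2 * (1 + T) ^ 2) = r * (8 * (1 + T) ^ 2) / 4 := by ring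
        _ ≤ r * N ^ c / 4 := by linarith
        _ = N ^ (-(2 * c)) / 4 := by rw [e32]
        _ ≤ _ := h5
  unfold rr
  rw [abs_mul, Finset.abs_prod, Finset.abs_prod, pow_add]
  refine mul_le_mul ?_ ?_ (by positivity) (Finset.prod_nonneg fun i _ => abs_nonneg _)
  · calc r ^ k = ∏ _i : Fin k, r := by rw [Finset.prod_const, Finset.card_univ, Fintype.card_fin]
      _ ≤ _ := Finset.prod_le_prod (fun i _ => hr0.le) fun i _ => hsingle i
  · calc r ^ (k * k) = ∏ _i : Fin k, r ^ k := by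
          rw [Finset.prod_const, Finset.card_univ, Fintype.card_fin, pow_mul]
      _ ≤ _ := by
          refine Finset.prod_le_prod (fun i _ => by positivity) fun i _ => ?_
          rw [Finset.abs_prod]
          calc r ^ k = ∏ _j : Fin k, r := by
                rw [Finset.prod_const, Finset.card_univ, Fintype.card_fin]
            _ ≤ _ := Finset.prod_le_prod (fun j _ => hr0.le) fun j _ => hpair i j

end Pool.Agent.Lib.MP_ec260d_ntU
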